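import Mathlib

/-!
# Periodic tilings: definitions
-/

set_option autoImplicit false

namespace Pool.Agent.Q206.PW

/-- points of the square grid -/
abbrev Pt : Type := ℤ × ℤ

/-- `u` is in the square with the centre `z` and the radius `k` -/
def Box (k : ℕ) (z u : Pt) : Prop := |u.1 - z.1| ≤ k ∧ |u.2 - z.2| ≤ k

/-- `v` is a period of `x` -/
def HasPeriod {A : Type} (x : Pt → A) (v : Pt) : Prop := ∀ u, x (u + v) = x u

/-- inside of the square with the centre `z` and the radius `k`, `v` is a period of `x` -/
def LocPer {A : Type} (x : Pt → A) (v z : Pt) (k : ℕ) : Prop :=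
  ∀ u, Box k z u → Box k z (u + v) → x (u + v) = x u

/-- parallel vectors -/
def Par (v w : Pt) : Prop := v.1 * w.2 = v.2 * w.1

/-- `X` is closed (in the product topology): `y` is in `X` if it agrees on every square with centre
`0` with an element of `X` -/
def Clo {A : Type} (X : Set (Pt → A)) : Prop :=
  ∀ y : Pt → A, (∀ k : ℕ, ∃ x ∈ X, ∀ u, Box k 0 u → x u = y u) → y ∈ X

/-- `X` is invariant under translations -/
def Inv {A : Type} (X : Set (Pt → A)) : Prop := ∀ x ∈ X, ∀ c : Pt, (fun u => x (u + c)) ∈ X

/-- no nonzero vector in the square with centre `0` and radius `n` is a period of `x` -/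
def NoPer {A : Type} (x : Pt → A) (n : ℕ) : Prop := ∀ v, v ≠ 0 → Box n 0 v → ¬ HasPeriod x v

/-- A Wang tile: the colours of the left, right, lower and upper edge. -/
abbrev Tile : Type := ℕ × ℕ × ℕ × ℕ

/-- The tile `t` may be the left neighbour of `t'`. -/
def Hor (t t' : Tile) : Prop := t.2.1 = t'.1

/-- The tile `t` may be the lower neighbour of `t'`. -/
def Ver (t t' : Tile) : Prop := t.2.2.2 = t'.2.2.1

/-- `T` is a tiling of the plane by the prototile set `S`. -/
def IsTiling (S : List Tile) (T : Pt → Tile) : Prop :=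
  (∀ u, T u ∈ S) ∧ (∀ u, Hor (T u) (T (u + (1, 0)))) ∧ ∀ u, Ver (T u) (T (u + (0, 1)))

/-- `T` is a tiling of the square with the centre `0` and the radius `n`. -/
def BoxTiling (S : List Tile) (n : ℕ) (T : Pt → Tile) : Prop :=
  (∀ u, Box n 0 u → T u ∈ S) ∧
  (∀ u, Box n 0 u → Box n 0 (u + (1, 0)) → Hor (T u) (T (u + (1, 0)))) ∧
  ∀ u, Box n 0 u → Box n 0 (u + (0, 1)) → Ver (T u) (T (u + (0, 1)))

/-- a bound for the determinants -/
def Lf (B : ℕ) : ℕ := (2 * B ^ 2).factorial

/-- the radius of the squares for which local periodicity is assumed, in terms of the bound `B` of the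
vectors -/
def Kf (B : ℕ) : ℕ := 4 * Lf B * B ^ 3 + 2 * B

/-- the tiling with the number `c` of the square with centre `0` and radius `n`: the point `u` has
the tile whose number is the digit of `c` at the position `(u.1 + n) (2 n + 1) + (u.2 + n)` -/
def dec (S : List Tile) (n c : ℕ) (u : Pt) : Tile :=
  S.getD ((c / S.length ^ ((u.1 + n).toNat * (2 * n + 1) + (u.2 + n).toNat)) % S.length) 0

end Pool.Agent.Q206.PW
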