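import Pool.Agent.Q206.PW.Stm2

/-!
# PW-DBL: a tiling with a nonzero period gives a doubly periodic tiling
-/

set_option autoImplicit false

namespace Pool.Agent.Q206.PW

theorem dbl_core {A : Type} {H V : A → A → Prop} {T : Pt → A} (hT : Tl H V T) {a b p : ℤ}
    (hb : 0 < b) (hv : ∀ x y, T (x + a, y + b) = T (x, y)) (hp : |a| < p)
    (hw : ∀ s y, |s| ≤ |a| → 0 ≤ y → y < b → T (p + s, y) = T (s, y)) :
    ∃ T' : Pt → A, Tl H V T' ∧ (∀ x y, T' (x + b * p, y) = T' (x, y)) ∧
      ∀ x y, T' (x, y + b * p) = T' (x, y) := by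
  have ha := abs_nonneg a
  have hp0 : 0 < p := by omega
  have ha1 := neg_abs_le a
  have ha2 := le_abs_self a
  refine ⟨fun u => T ((u.1 - (u.2 / b) * a) % p, u.2 % b), ⟨?_, ?_⟩, ?_, ?_⟩
  · intro u
    set r := (u.1 - (u.2 / b) * a) % p with hr
    have g1 : 0 ≤ r := Int.emod_nonneg _ hp0.ne'
    have g2 : r < p := Int.emod_lt_of_pos _ hp0
    have g3 : 0 ≤ u.2 % b := Int.emod_nonneg _ hb.ne'
    have g4 : u.2 % b < b := Int.emod_lt_of_pos _ hb
    have e0 : (u + ((1, 0) : Pt)).2 = u.2 := by simp
    have e1 : (u + ((1, 0) : Pt)).1 = u.1 + 1 := by simp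
    have e2 : (u.1 + 1 - (u.2 / b) * a) % p = (r + 1) % p := by
      rw [hr, Int.emod_add_emod]
      congr 1
      ring
    have h := hT.1 (r, u.2 % b)
    simp only [Prod.mk_add_mk, add_zero] at h
    simp only [e0, e1, e2]
    rcases lt_or_ge (r + 1) p with h1 | h1
    · rw [Int.emod_eq_of_lt (by omega) h1]
      exact h
    · have h2 : r + 1 = p := by omega
      rw [h2, Int.emod_self]
      have h3 := hw 0 (u.2 % b) (by simp) g3 g4
      rw [add_zero] at h3
      rw [← h3]
      rw [h2] at h
      exact h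
  · intro u
    set r := (u.1 - (u.2 / b) * a) % p with hr
    have g1 : 0 ≤ r := Int.emod_nonneg _ hp0.ne'
    have g2 : r < p := Int.emod_lt_of_pos _ hp0
    have g3 : 0 ≤ u.2 % b := Int.emod_nonneg _ hb.ne'
    have g4 : u.2 % b < b := Int.emod_lt_of_pos _ hb
    have g5 := Int.emod_add_mul_ediv u.2 b
    have e0 : (u + ((0, 1) : Pt)).2 = u.2 + 1 := by simp
    have e1 : (u + ((0, 1) : Pt)).1 = u.1 := by simp
    have h := hT.2 (r, u.2 % b)
    simp only [Prod.mk_add_mk, add_zero] at h
    simp only [e0, e1]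
    rcases lt_or_ge (u.2 % b + 1) b with h1 | h1
    · have e2 : (u.2 + 1) % b = u.2 % b + 1 := by
        rw [← Int.emod_add_emod]
        exact Int.emod_eq_of_lt (by omega) h1
      have e3 : (u.2 + 1) / b = u.2 / b := by
        rw [Int.ediv_eq_iff_of_pos hb]
        constructor <;> nlinarith
      rw [e2, e3]
      exact h
    · have h2 : u.2 % b + 1 = b := by omega
      have e2 : (u.2 + 1) % b = 0 := by
        rw [← Int.emod_add_emod, h2, Int.emod_self]
      have e3 : (u.2 + 1) / b = u.2 / b + 1 := by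
        rw [Int.ediv_eq_iff_of_pos hb]
        constructor <;> nlinarith
      rw [e2, e3]
      have e4 : (u.1 - (u.2 / b + 1) * a) % p = (r - a) % p := by
        rw [hr, Int.emod_sub_emod]
        congr 1
        ring
      rw [e4]
      rw [h2] at h
      have h3 := hv (r - a) 0
      rw [sub_add_cancel, zero_add] at h3
      rw [h3] at h
      have h4 : T ((r - a) % p, 0) = T (r - a, 0) := by
        rcases lt_or_ge (r - a) 0 with h5 | h5
        · have h6 : (r - a) % p = p + (r - a) := by
            rw [← Int.add_emod_right, Int.emod_eq_of_lt (by omega) (by omega)]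
            ring
          rw [h6]
          refine hw _ _ ?_ le_rfl hb
          rw [abs_le]
          constructor <;> omega
        · rcases lt_or_ge (r - a) p with h6 | h6
          · rw [Int.emod_eq_of_lt h5 h6]
          · have h7 : (r - a) % p = r - a - p := by
              rw [← Int.sub_emod_right, Int.emod_eq_of_lt (by omega) (by omega)]
            rw [h7]
            have h8 := hw (r - a - p) 0 (by rw [abs_le]; constructor <;> omega) le_rfl hb
            rw [← h8]
            congr 2
            ring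
      rw [h4]
      exact h
  · intro x y
    simp only
    congr 2
    have : x + b * p - y / b * a = x - y / b * a + b * p := by ring
    rw [this, Int.add_mul_emod_self_right]
  · intro x y
    simp only
    congr 2
    · rw [mul_comm b p, Int.add_mul_ediv_right _ _ hb.ne']
      have : x - (y / b + p) * a = x - y / b * a - a * p := by ring
      rw [this, Int.sub_mul_emod_self_right]
    · rw [mul_comm b p, Int.add_mul_emod_self_right]

theorem dbl_pos {A : Type} [Finite A] {H V : A → A → Prop} {T : Pt → A} (hT : Tl H V T) {a b : ℤ}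
    (hb : 0 < b) (hv : HasPeriod T (a, b)) :
    ∃ (T' : Pt → A) (n : ℕ), Tl H V T' ∧ HasPeriod T' ((n : ℤ) + 1, 0) ∧
      HasPeriod T' (0, (n : ℤ) + 1) := by
  have ha := abs_nonneg a
  have key : ∀ k k' : ℕ, k < k' → (∀ s y : ℤ, |s| ≤ |a| → 0 ≤ y → y < b →
      T ((k : ℤ) * (|a| + 1) + s, y) = T ((k' : ℤ) * (|a| + 1) + s, y)) →
      ∃ (T' : Pt → A) (n : ℕ), Tl H V T' ∧ HasPeriod T' ((n : ℤ) + 1, 0) ∧
      HasPeriod T' (0, (n : ℤ) + 1) := by
    intro k k' hk hkk
    have hk' : (k : ℤ) + 1 ≤ k' := by exact_mod_cast hk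
    set p : ℤ := ((k' : ℤ) - k) * (|a| + 1) with hpdef
    have hp : |a| < p := by nlinarith
    obtain ⟨T', h1, h2, h3⟩ := dbl_core (T := fun u => T (u + ((k : ℤ) * (|a| + 1), 0)))
      (H := H) (V := V) (a := a) (b := b) (p := p) (by
        constructor
        · intro u
          have := hT.1 (u + ((k : ℤ) * (|a| + 1), 0))
          rwa [add_right_comm] at this
        · intro u
          have := hT.2 (u + ((k : ℤ) * (|a| + 1), 0))
          rwa [add_right_comm] at this) hb (by
        intro x y
        have := hv ((x, y) + ((k : ℤ) * (|a| + 1), 0))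
        rw [add_right_comm] at this
        exact this) hp (by
        intro s y hs hy hy'
        have := hkk s y hs hy hy'
        simp only [Prod.mk_add_mk, add_zero]
        have e1 : s + (k : ℤ) * (|a| + 1) = (k : ℤ) * (|a| + 1) + s := by ring
        have e2 : p + s + (k : ℤ) * (|a| + 1) = (k' : ℤ) * (|a| + 1) + s := by
          rw [hpdef]; ring
        rw [e1, e2, this])
    have hbp : 0 < b * p := by
      have : 0 < p := by omega
      positivity
    have hn : (((b * p - 1).toNat : ℕ) : ℤ) + 1 = b * p := by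
      rw [Int.toNat_of_nonneg (by omega)]
      ring
    refine ⟨T', (b * p - 1).toNat, h1, ?_, ?_⟩
    · rw [hn]
      rintro ⟨x, y⟩
      have := h2 x y
      simpa using this
    · rw [hn]
      rintro ⟨x, y⟩
      have := h3 x y
      simpa using this
  let f : ℕ → (Fin (2 * a.natAbs + 1) × Fin b.toNat → A) := fun k s =>
    T ((k : ℤ) * (|a| + 1) + ((s.1 : ℕ) : ℤ) - |a|, ((s.2 : ℕ) : ℤ))
  obtain ⟨k, k', hne, heq⟩ := Finite.exists_ne_map_eq_of_infinite f
  have hall : ∀ s y : ℤ, |s| ≤ |a| → 0 ≤ y → y < b →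
      T ((k : ℤ) * (|a| + 1) + s, y) = T ((k' : ℤ) * (|a| + 1) + s, y) := by
    intro s y hs hy hy'
    rw [abs_le] at hs
    have hna : (a.natAbs : ℤ) = |a| := Int.natCast_natAbs a
    have h1 : (s + |a|).toNat < 2 * a.natAbs + 1 := by omega
    have h2 : y.toNat < b.toNat := by omega
    have h3 := congrFun heq (⟨(s + |a|).toNat, h1⟩, ⟨y.toNat, h2⟩)
    simp only [f] at h3
    rw [Int.toNat_of_nonneg (by omega), Int.toNat_of_nonneg hy] at h3
    have e1 : (k : ℤ) * (|a| + 1) + (s + |a|) - |a| = (k : ℤ) * (|a| + 1) + s := by ring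
    have e2 : (k' : ℤ) * (|a| + 1) + (s + |a|) - |a| = (k' : ℤ) * (|a| + 1) + s := by ring
    rwa [e1, e2] at h3
  rcases lt_or_gt_of_ne hne with h | h
  · exact key k k' h hall
  · exact key k' k h fun s y h1 h2 h3 => (hall s y h1 h2 h3).symm

theorem neg_period {A : Type} {T : Pt → A} {v : Pt} (h : HasPeriod T v) : HasPeriod T (-v) := by
  intro u
  have := h (u + -v)
  rw [add_assoc, neg_add_cancel, add_zero] at this
  exact this.symm

theorem dbl_ne {A : Type} [Finite A] {H V : A → A → Prop} {T : Pt → A} (hT : Tl H V T) {v : Pt}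
    (hb : v.2 ≠ 0) (hv : HasPeriod T v) :
    ∃ (T' : Pt → A) (n : ℕ), Tl H V T' ∧ HasPeriod T' ((n : ℤ) + 1, 0) ∧
      HasPeriod T' (0, (n : ℤ) + 1) := by
  rcases lt_or_gt_of_ne hb with h | h
  · exact dbl_pos hT (a := -v.1) (b := -v.2) (by omega) (neg_period hv)
  · exact dbl_pos hT (a := v.1) (b := v.2) h hv

/-- exchange of the coordinates -/
def swp (u : Pt) : Pt := (u.2, u.1)

theorem swp_tl {A : Type} {H V : A → A → Prop} {T : Pt → A} (hT : Tl H V T) :
    Tl V H (fun u => T (swp u)) := by
  constructor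
  · intro u
    exact hT.2 (swp u)
  · intro u
    exact hT.1 (swp u)

theorem swp_per {A : Type} {T : Pt → A} {v : Pt} (hT : HasPeriod T v) :
    HasPeriod (fun u => T (swp u)) (swp v) := fun u => hT (swp u)

theorem t_DBL : S_DBL := by
  intro A _ H V T v hT hv hp
  by_cases hb : v.2 = 0
  · have ha : v.1 ≠ 0 := fun ha => hv (Prod.ext ha hb)
    obtain ⟨T', n, h1, h2, h3⟩ := dbl_ne (swp_tl hT) (v := swp v) ha (swp_per hp)
    exact ⟨fun u => T' (swp u), n, swp_tl h1, swp_per h3, swp_per h2⟩
  · exact dbl_ne hT hb hp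

end Pool.Agent.Q206.PW
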