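import Pool.Agent.Q206.PW.Stm

/-!
# PW-ENC: every map of a square to a finite list is coded by a number
-/

set_option autoImplicit false

namespace Pool.Agent.Q206.PW

/-- digits: every finite sequence of digits in base `b` is realised by a number -/
theorem exists_digits (b : ℕ) (d : ℕ → ℕ) :
    ∀ N : ℕ, (∀ p, p < N → d p < b) → ∃ c, c < b ^ N ∧ ∀ p, p < N → (c / b ^ p) % b = d p
  | 0, _ => ⟨0, by simp, fun p hp => absurd hp (Nat.not_lt_zero p)⟩
  | N + 1, h => by
    obtain ⟨c, hc, hd⟩ := exists_digits b d N (fun p hp => h p (Nat.lt_succ_of_lt hp))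
    have hN : d N < b := h N (Nat.lt_succ_self N)
    have hb : 0 < b := lt_of_le_of_lt (Nat.zero_le _) hN
    have hbN : 0 < b ^ N := Nat.pow_pos hb
    refine ⟨c + d N * b ^ N, ?_, ?_⟩
    · calc c + d N * b ^ N < b ^ N + d N * b ^ N := Nat.add_lt_add_right hc _
        _ = (d N + 1) * b ^ N := by ring
        _ ≤ b * b ^ N := Nat.mul_le_mul_right _ hN
        _ = b ^ (N + 1) := by ring
    · intro p hp
      rcases Nat.lt_succ_iff_lt_or_eq.1 hp with hlt | heq
      · have hpp : 0 < b ^ p := Nat.pow_pos hb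
        have hsplit : b ^ N = b ^ p * (b * b ^ (N - p - 1)) := by
          rw [← pow_succ', ← pow_add]
          congr 1
          omega
        have h1 : (c + d N * b ^ N) / b ^ p = c / b ^ p + b * (d N * b ^ (N - p - 1)) := by
          rw [hsplit, show c + d N * (b ^ p * (b * b ^ (N - p - 1)))
            = c + b ^ p * (b * (d N * b ^ (N - p - 1))) by ring, Nat.add_mul_div_left _ _ hpp]
        rw [h1, Nat.add_mul_mod_self_left, hd p hlt]
      · subst heq
        rw [Nat.add_mul_div_right _ _ hbN, Nat.div_eq_of_lt hc, zero_add, Nat.mod_eq_of_lt hN]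

/-- the position of a point of the square and the point of a position -/
theorem point_of_position (n : ℕ) (u : Pt) (hu : Box n 0 u) :
    (u.1 + n).toNat * (2 * n + 1) + (u.2 + n).toNat < (2 * n + 1) ^ 2 ∧
      (((((u.1 + n).toNat * (2 * n + 1) + (u.2 + n).toNat) / (2 * n + 1) : ℕ) : ℤ) - n,
        ((((u.1 + n).toNat * (2 * n + 1) + (u.2 + n).toNat) % (2 * n + 1) : ℕ) : ℤ) - n) = u := by
  obtain ⟨x, y⟩ := u
  obtain ⟨h1, h2⟩ := hu
  simp only [Prod.fst_zero, Prod.snd_zero, sub_zero] at h1 h2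
  obtain ⟨h1a, h1b⟩ := abs_le.1 h1
  obtain ⟨h2a, h2b⟩ := abs_le.1 h2
  obtain ⟨a, ha⟩ : ∃ a : ℕ, (x + n).toNat = a := ⟨_, rfl⟩
  obtain ⟨c, hc⟩ : ∃ c : ℕ, (y + n).toNat = c := ⟨_, rfl⟩
  have ha' : (a : ℤ) = x + n := by rw [← ha]; exact Int.toNat_of_nonneg (by linarith)
  have hc' : (c : ℤ) = y + n := by rw [← hc]; exact Int.toNat_of_nonneg (by linarith)
  have hal : a < 2 * n + 1 := by omega
  have hcl : c < 2 * n + 1 := by omega
  simp only [ha, hc]
  refine ⟨by nlinarith, ?_⟩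
  have e1 : (a * (2 * n + 1) + c) / (2 * n + 1) = a := by
    rw [add_comm, Nat.add_mul_div_right _ _ (by omega), Nat.div_eq_of_lt hcl, zero_add]
  have e2 : (a * (2 * n + 1) + c) % (2 * n + 1) = c := by
    rw [add_comm, Nat.add_mul_mod_self_right, Nat.mod_eq_of_lt hcl]
  rw [e1, e2, ha', hc']
  ext <;> simp

/-- **PW-ENC.** -/
theorem enc : S_ENC := by
  intro S n T hT
  obtain ⟨c, hc, hd⟩ := exists_digits S.length
    (fun p => S.idxOf (T (((p / (2 * n + 1) : ℕ) : ℤ) - n, ((p % (2 * n + 1) : ℕ) : ℤ) - n)))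
    ((2 * n + 1) ^ 2) (by
      intro p hp
      refine List.idxOf_lt_length_of_mem (hT _ ?_)
      have h1 : p / (2 * n + 1) < 2 * n + 1 := Nat.div_lt_of_lt_mul (by nlinarith)
      have h2 : p % (2 * n + 1) < 2 * n + 1 := Nat.mod_lt _ (by omega)
      obtain ⟨a, ha⟩ : ∃ a : ℕ, p / (2 * n + 1) = a := ⟨_, rfl⟩
      obtain ⟨e, he⟩ : ∃ e : ℕ, p % (2 * n + 1) = e := ⟨_, rfl⟩
      rw [ha] at h1 ⊢
      rw [he] at h2 ⊢
      refine ⟨?_, ?_⟩
      · simp only [Prod.fst_zero, sub_zero]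
        rw [abs_le]
        constructor <;> omega
      · simp only [Prod.snd_zero, sub_zero]
        rw [abs_le]
        constructor <;> omega)
  refine ⟨c, hc, fun u hu => ?_⟩
  obtain ⟨hlt, hpt⟩ := point_of_position n u hu
  have := hd _ hlt
  simp only [hpt] at this
  rw [dec, this]
  have hm : T u ∈ S := hT u hu
  rw [List.getD_eq_getElem _ _ (List.idxOf_lt_length_of_mem hm), List.getElem_idxOf]

end Pool.Agent.Q206.PW
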