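import Pool.Agent.Q206.PW.Stm

/-!
# PW-KON: compactness for tilings
-/

set_option autoImplicit false

namespace Pool.Agent.Q206.PW

theorem box_finite (k : ℕ) (z : Pt) : {u : Pt | Box k z u}.Finite := by
  refine ((Set.finite_Icc (z.1 - k) (z.1 + k)).prod (Set.finite_Icc (z.2 - k) (z.2 + k))).subset ?_
  rintro ⟨a, b⟩ ⟨h1, h2⟩
  rw [abs_le] at h1 h2
  dsimp only at h1 h2
  exact ⟨⟨by linarith, by linarith⟩, ⟨by linarith, by linarith⟩⟩

theorem mem_some_box (u : Pt) : Box (max u.1.natAbs u.2.natAbs) 0 u := by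
  constructor
  · have h1 : u.1.natAbs ≤ max u.1.natAbs u.2.natAbs := le_max_left _ _
    show |u.1 - 0| ≤ _
    rw [sub_zero, Int.abs_eq_natAbs]
    exact_mod_cast h1
  · have h1 : u.2.natAbs ≤ max u.1.natAbs u.2.natAbs := le_max_right _ _
    show |u.2 - 0| ≤ _
    rw [sub_zero, Int.abs_eq_natAbs]
    exact_mod_cast h1

theorem box_mono {k k' : ℕ} (h : k ≤ k') {z u : Pt} (hu : Box k z u) : Box k' z u := by
  have h1 : (k : ℤ) ≤ k' := by exact_mod_cast h
  exact ⟨hu.1.trans h1, hu.2.trans h1⟩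

theorem j_KON : S_KON := by
  intro S T hT
  have hex : ∀ u : Pt, ∃ s ∈ S, ∀ᶠ m in (Filter.hyperfilter ℕ : Filter ℕ), T m u = s := by
    intro u
    have h1 : ∀ᶠ m in (Filter.hyperfilter ℕ : Filter ℕ), ∃ s ∈ {s | s ∈ S}, T m u = s := by
      have h2 : ∀ᶠ m in (Filter.hyperfilter ℕ : Filter ℕ), max u.1.natAbs u.2.natAbs ≤ m :=
        (Nat.hyperfilter_le_atTop) (Filter.eventually_ge_atTop _)
      filter_upwards [h2] with m hm
      exact ⟨T m u, (hT m).1 u (box_mono hm (mem_some_box u)), rfl⟩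
    exact (Ultrafilter.eventually_exists_mem_iff (List.finite_toSet S)).1 h1
  choose T' hTS hTe using hex
  have key : ∀ k : ℕ, ∃ m, k ≤ m ∧ ∀ u, Box k 0 u → T' u = T m u := by
    intro k
    have h1 : ∀ᶠ m in (Filter.hyperfilter ℕ : Filter ℕ), ∀ u ∈ {u : Pt | Box k 0 u},
        T m u = T' u :=
      (Filter.eventually_all_finite (box_finite k 0)).2 fun u _ => hTe u
    have h2 : ∀ᶠ m in (Filter.hyperfilter ℕ : Filter ℕ), k ≤ m :=
      (Nat.hyperfilter_le_atTop) (Filter.eventually_ge_atTop _)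
    obtain ⟨m, hm1, hm2⟩ := (h1.and h2).exists
    exact ⟨m, hm2, fun u hu => (hm1 u hu).symm⟩
  refine ⟨T', ⟨hTS, fun u => ?_, fun u => ?_⟩, key⟩
  · obtain ⟨m, hm1, hm2⟩ := key (max (max u.1.natAbs u.2.natAbs)
      (max (u + (1, 0)).1.natAbs (u + (1, 0)).2.natAbs))
    have b1 := box_mono (le_max_left (max u.1.natAbs u.2.natAbs)
      (max (u + (1, 0)).1.natAbs (u + (1, 0)).2.natAbs)) (mem_some_box u)
    have b2 := box_mono (le_max_right (max u.1.natAbs u.2.natAbs)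
      (max (u + (1, 0)).1.natAbs (u + (1, 0)).2.natAbs)) (mem_some_box (u + (1, 0)))
    rw [hm2 _ b1, hm2 _ b2]
    exact (hT m).2.1 u (box_mono hm1 b1) (box_mono hm1 b2)
  · obtain ⟨m, hm1, hm2⟩ := key (max (max u.1.natAbs u.2.natAbs)
      (max (u + (0, 1)).1.natAbs (u + (0, 1)).2.natAbs))
    have b1 := box_mono (le_max_left (max u.1.natAbs u.2.natAbs)
      (max (u + (0, 1)).1.natAbs (u + (0, 1)).2.natAbs)) (mem_some_box u)
    have b2 := box_mono (le_max_right (max u.1.natAbs u.2.natAbs)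
      (max (u + (0, 1)).1.natAbs (u + (0, 1)).2.natAbs)) (mem_some_box (u + (0, 1)))
    rw [hm2 _ b1, hm2 _ b2]
    exact (hT m).2.2 u (box_mono hm1 b1) (box_mono hm1 b2)

end Pool.Agent.Q206.PW

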