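import Pool.Agent.Q206.PW.Stm

/-!
# PW-LOC2: local periodicity implies periodicity
-/

set_option autoImplicit false

namespace Pool.Agent.Q206.PW

theorem box_trans {k k' d : ℕ} {z z' u : Pt} (hz : Box d z z') (hk : k' + d ≤ k)
    (hu : Box k' z' u) : Box k z u := by
  have h1 : (k' : ℤ) + d ≤ k := by exact_mod_cast hk
  obtain ⟨a1, a2⟩ := hz
  obtain ⟨b1, b2⟩ := hu
  constructor
  · have h2 : u.1 - z.1 = (u.1 - z'.1) + (z'.1 - z.1) := by ring
    rw [h2]
    exact (abs_add_le _ _).trans (by linarith)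
  · have h2 : u.2 - z.2 = (u.2 - z'.2) + (z'.2 - z.2) := by ring
    rw [h2]
    exact (abs_add_le _ _).trans (by linarith)

theorem box_self (k : ℕ) (z : Pt) : Box k z z := by
  constructor
  · rw [sub_self, abs_zero]
    positivity
  · rw [sub_self, abs_zero]
    positivity

theorem box_add {B : ℕ} {w : Pt} (hw : Box B 0 w) (z : Pt) : Box B z (z + w) := by
  obtain ⟨a1, a2⟩ := hw
  constructor
  · have h2 : (z + w).1 - z.1 = w.1 - (0 : Pt).1 := by simp
    rw [h2]
    exact a1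
  · have h2 : (z + w).2 - z.2 = w.2 - (0 : Pt).2 := by simp
    rw [h2]
    exact a2

theorem box_neg {B : ℕ} {w : Pt} (hw : Box B 0 w) : Box B 0 (-w) := by
  obtain ⟨a1, a2⟩ := hw
  constructor
  · have h2 : (-w).1 - (0 : Pt).1 = -(w.1 - (0 : Pt).1) := by simp
    rw [h2, abs_neg]
    exact a1
  · have h2 : (-w).2 - (0 : Pt).2 = -(w.2 - (0 : Pt).2) := by simp
    rw [h2, abs_neg]
    exact a2

theorem box_shift {k : ℕ} {z u : Pt} (w : Pt) : Box k (z + w) (u + w) ↔ Box k z u := by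
  unfold Box
  have h1 : (u + w).1 - (z + w).1 = u.1 - z.1 := by simp
  have h2 : (u + w).2 - (z + w).2 = u.2 - z.2 := by simp
  rw [h1, h2]

section

variable {A : Type} {x : Pt → A}

theorem locPer_neg {v z : Pt} {k : ℕ} (h : LocPer x v z k) : LocPer x (-v) z k := by
  intro u hu hv
  have h1 := h (u + -v) hv (by rw [neg_add_cancel_right]; exact hu)
  rw [neg_add_cancel_right] at h1
  exact h1.symm

theorem locPer_sub {v z z' : Pt} {k k' d : ℕ} (h : LocPer x v z k) (hz : Box d z z')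
    (hk : k' + d ≤ k) : LocPer x v z' k' := fun u hu hv =>
  h u (box_trans hz hk hu) (box_trans hz hk hv)

theorem locPer_shift {w z : Pt} {K K' B : ℕ} (hw : Box B 0 w) (hK : K' + B ≤ K)
    (h : LocPer x w z K) (v : Pt) : LocPer x v z K' ↔ LocPer x v (z + w) K' := by
  have key : ∀ u, Box K' z u → x (u + w) = x u := fun u hu =>
    h u (box_trans (box_self 0 z) (by omega) hu)
      (box_trans (box_add hw z) hK ((box_shift w).2 hu))
  constructor
  · intro hv u hu hu2
    have e1 : u = (u - w) + w := by rw [sub_add_cancel]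
    have e2 : u + v = ((u - w) + v) + w := by abel
    have hu' : Box K' z (u - w) := by
      rw [e1] at hu
      exact (box_shift w).1 hu
    have hu2' : Box K' z ((u - w) + v) := by
      rw [e2] at hu2
      exact (box_shift w).1 hu2
    calc x (u + v) = x (((u - w) + v) + w) := by rw [← e2]
      _ = x ((u - w) + v) := key _ hu2'
      _ = x (u - w) := hv _ hu' hu2'
      _ = x ((u - w) + w) := (key _ hu').symm
      _ = x u := by rw [← e1]
  · intro hv u hu hu2
    have h1 : Box K' (z + w) (u + w) := (box_shift w).2 hu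
    have h2 : Box K' (z + w) ((u + w) + v) := by
      have e : (u + w) + v = (u + v) + w := by abel
      rw [e]
      exact (box_shift w).2 hu2
    calc x (u + v) = x ((u + v) + w) := (key _ hu2).symm
      _ = x ((u + w) + v) := by
          congr 1
          abel
      _ = x (u + w) := hv _ h1 h2
      _ = x u := key _ hu

/-- going along a local period -/
theorem path {e z : Pt} {k : ℕ} (he : LocPer x e z k) (p : Pt) (n : ℕ)
    (h : ∀ i : ℕ, i ≤ n → Box k z (p + (i : ℤ) • e)) : x (p + (n : ℤ) • e) = x p := by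
  induction n with
  | zero => simp
  | succ n ih =>
    have e1 : p + ((n + 1 : ℕ) : ℤ) • e = (p + (n : ℤ) • e) + e := by
      push_cast
      rw [add_smul, one_smul, add_assoc]
    have h1 := h (n + 1) le_rfl
    rw [e1] at h1 ⊢
    rw [he _ (h n (Nat.le_succ n)) h1]
    exact ih fun i hi => h i (hi.trans (Nat.le_succ n))

theorem pathZ {w z : Pt} {k : ℕ} (hw : LocPer x w z k) (p : Pt) (α : ℤ)
    (h : ∀ i : ℤ, |i| ≤ |α| → Box k z (p + i • w)) : x (p + α • w) = x p := by
  rcases le_total 0 α with h0 | h0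
  · obtain ⟨n, rfl⟩ := Int.eq_ofNat_of_zero_le h0
    refine path hw p n fun i hi => h i ?_
    rw [abs_of_nonneg (by positivity), abs_of_nonneg (by positivity)]
    exact_mod_cast hi
  · obtain ⟨n, hn⟩ := Int.eq_ofNat_of_zero_le (neg_nonneg.2 h0)
    have hα : α = -(n : ℤ) := by omega
    subst hα
    have e1 : p + (-(n : ℤ)) • w = p + (n : ℤ) • (-w) := by rw [neg_smul, smul_neg]
    rw [e1]
    refine path (locPer_neg hw) p n fun i hi => ?_
    have e2 : p + (i : ℤ) • (-w) = p + (-(i : ℤ)) • w := by rw [neg_smul, smul_neg]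
    rw [e2]
    refine h _ ?_
    rw [abs_neg, abs_neg, abs_of_nonneg (by positivity), abs_of_nonneg (by positivity)]
    exact_mod_cast hi

end

/-- single points -/
def Sgl {A : Type} (x : Pt → A) (W : Set Pt) (K' : ℕ) (z : Pt) : Prop :=
  ∀ w ∈ W, ∀ w' ∈ W, LocPer x w z K' → LocPer x w' z K' → Par w w'

theorem abs_det {B : ℕ} {w w' : Pt} (hw : Box B 0 w) (hw' : Box B 0 w') :
    |w.1 * w'.2 - w.2 * w'.1| ≤ 2 * (B : ℤ) ^ 2 := by
  obtain ⟨a1, a2⟩ := hw
  obtain ⟨b1, b2⟩ := hw'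
  simp only [Prod.fst_zero, Prod.snd_zero, sub_zero] at a1 a2 b1 b2
  have hB : (0 : ℤ) ≤ B := by positivity
  calc |w.1 * w'.2 - w.2 * w'.1| ≤ |w.1 * w'.2| + |w.2 * w'.1| := abs_sub _ _
    _ = |w.1| * |w'.2| + |w.2| * |w'.1| := by rw [abs_mul, abs_mul]
    _ ≤ B * B + B * B := add_le_add (mul_le_mul a1 b2 (abs_nonneg _) hB)
        (mul_le_mul a2 b1 (abs_nonneg _) hB)
    _ = 2 * (B : ℤ) ^ 2 := by ring

theorem j_LOC2 : S_LOC2 := by
  intro B W hW hpar A x hloc
  set K' : ℕ := 4 * Lf B * B ^ 3 with hK'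
  have hKf : Kf B = K' + 2 * B := rfl
  rw [hKf] at hloc
  -- (A)
  have hstep : ∀ w ∈ W, ∀ e : Pt, (e = w ∨ e = -w) → ∀ z, Sgl x W K' z →
      LocPer x w z (K' + 2 * B) → Sgl x W K' (z + e) ∧ LocPer x w (z + e) (K' + 2 * B) := by
    intro w hw e he z hz hwz
    have heB : Box B 0 e := by
      rcases he with rfl | rfl
      · exact (hW _ hw).2
      · exact box_neg (hW _ hw).2
    have hez : LocPer x e z (K' + 2 * B) := by
      rcases he with rfl | rfl
      · exact hwz
      · exact locPer_neg hwz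
    have hsh := fun v => locPer_shift (K' := K') heB (by omega) hez v
    refine ⟨fun a ha b hb h1 h2 => hz a ha b hb ((hsh a).2 h1) ((hsh b).2 h2), ?_⟩
    obtain ⟨w'', hw'', hl⟩ := hloc (z + e)
    have h1 : LocPer x w'' (z + e) K' := locPer_sub hl (box_self 0 _) (by omega)
    have h2 : LocPer x w z K' := locPer_sub hwz (box_self 0 _) (by omega)
    rcases hpar w hw w'' hw'' (hz w hw w'' hw'' h2 ((hsh w'').2 h1)) with h3 | h3
    · rw [h3] at hl
      exact hl
    · rw [h3] at hl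
      have h4 := locPer_neg hl
      rwa [neg_neg] at h4
  have hA : ∀ w ∈ W, ∀ z, Sgl x W K' z → LocPer x w z (K' + 2 * B) → ∀ t : ℤ,
      Sgl x W K' (z + t • w) ∧ LocPer x w (z + t • w) (K' + 2 * B) := by
    intro w hw z hz hwz t
    induction t using Int.induction_on with
    | zero =>
      rw [zero_smul, add_zero]
      exact ⟨hz, hwz⟩
    | succ n ih =>
      have h1 := hstep w hw w (Or.inl rfl) _ ih.1 ih.2
      have e : z + ((n : ℤ) + 1) • w = z + (n : ℤ) • w + w := by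
        rw [add_smul, one_smul, add_assoc]
      rw [e]
      exact h1
    | pred n ih =>
      have h1 := hstep w hw (-w) (Or.inr rfl) _ ih.1 ih.2
      have e : z + (-(n : ℤ) - 1) • w = z + (-(n : ℤ)) • w + -w := by
        rw [sub_smul, one_smul]
        abel
      rw [e]
      exact h1
  -- (B)
  have hB : ∀ w₁ ∈ W, ∀ w₂ ∈ W, ∀ z₁ z₂, Sgl x W K' z₁ → LocPer x w₁ z₁ (K' + 2 * B) →
      Sgl x W K' z₂ → LocPer x w₂ z₂ (K' + 2 * B) → Par w₁ w₂ := by
    intro w₁ hw₁ w₂ hw₂ z₁ z₂ hz₁ h₁ hz₂ h₂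
    by_contra hnp
    set D : ℤ := w₁.1 * w₂.2 - w₁.2 * w₂.1 with hD
    have hD0 : D ≠ 0 := fun h => hnp (sub_eq_zero.1 h)
    set s : ℤ := ((z₂.1 - z₁.1) * w₂.2 - (z₂.2 - z₁.2) * w₂.1) / D with hs
    set t : ℤ := (w₁.1 * (z₂.2 - z₁.2) - w₁.2 * (z₂.1 - z₁.1)) / D with ht
    set r₁ : ℤ := ((z₂.1 - z₁.1) * w₂.2 - (z₂.2 - z₁.2) * w₂.1) % D with hr₁
    set r₂ : ℤ := (w₁.1 * (z₂.2 - z₁.2) - w₁.2 * (z₂.1 - z₁.1)) % D with hr₂
    have e₁ : D * s + r₁ = (z₂.1 - z₁.1) * w₂.2 - (z₂.2 - z₁.2) * w₂.1 := Int.mul_ediv_add_emod _ _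
    have e₂ : D * t + r₂ = w₁.1 * (z₂.2 - z₁.2) - w₁.2 * (z₂.1 - z₁.1) := Int.mul_ediv_add_emod _ _
    have q₁ : |r₁| ≤ |D| := by
      rw [abs_of_nonneg (Int.emod_nonneg _ hD0)]
      exact (Int.emod_lt_abs _ hD0).le
    have q₂ : |r₂| ≤ |D| := by
      rw [abs_of_nonneg (Int.emod_nonneg _ hD0)]
      exact (Int.emod_lt_abs _ hD0).le
    obtain ⟨a1, a2⟩ := (hW w₁ hw₁).2
    obtain ⟨b1, b2⟩ := (hW w₂ hw₂).2
    simp only [Prod.fst_zero, Prod.snd_zero, sub_zero] at a1 a2 b1 b2
    have hDpos : 0 < |D| := abs_pos.2 hD0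
    have hBn : (0 : ℤ) ≤ B := by positivity
    have hcoord : ∀ X a b : ℤ, |a| ≤ B → |b| ≤ B → D * X = r₁ * a + r₂ * b → |X| ≤ 2 * B := by
      intro X a b ha hb hX
      have h1 : |D| * |X| ≤ |D| * (2 * B) := by
        rw [← abs_mul, hX]
        calc |r₁ * a + r₂ * b| ≤ |r₁ * a| + |r₂ * b| := abs_add_le _ _
          _ = |r₁| * |a| + |r₂| * |b| := by rw [abs_mul, abs_mul]
          _ ≤ |D| * B + |D| * B := add_le_add (mul_le_mul q₁ ha (abs_nonneg _) hDpos.le)
              (mul_le_mul q₂ hb (abs_nonneg _) hDpos.le)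
          _ = |D| * (2 * B) := by ring
      exact le_of_mul_le_mul_left h1 hDpos
    obtain ⟨hp, hpl⟩ := hA w₁ hw₁ z₁ hz₁ h₁ s
    obtain ⟨hq, hql⟩ := hA w₂ hw₂ z₂ hz₂ h₂ (-t)
    have hbox : Box (2 * B) (z₂ + (-t) • w₂) (z₁ + s • w₁) := by
      have c1 : |(z₂.1 - z₁.1) - s * w₁.1 - t * w₂.1| ≤ 2 * B := by
        refine hcoord _ w₁.1 w₂.1 a1 b1 ?_
        have h1 : D * ((z₂.1 - z₁.1) - s * w₁.1 - t * w₂.1) =
            D * (z₂.1 - z₁.1) - (D * s) * w₁.1 - (D * t) * w₂.1 := by ring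
        rw [h1, eq_sub_of_add_eq e₁, eq_sub_of_add_eq e₂, hD]
        ring
      have c2 : |(z₂.2 - z₁.2) - s * w₁.2 - t * w₂.2| ≤ 2 * B := by
        refine hcoord _ w₁.2 w₂.2 a2 b2 ?_
        have h1 : D * ((z₂.2 - z₁.2) - s * w₁.2 - t * w₂.2) =
            D * (z₂.2 - z₁.2) - (D * s) * w₁.2 - (D * t) * w₂.2 := by ring
        rw [h1, eq_sub_of_add_eq e₁, eq_sub_of_add_eq e₂, hD]
        ring
      constructor
      · have h1 : (z₁ + s • w₁).1 - (z₂ + (-t) • w₂).1 =
            -((z₂.1 - z₁.1) - s * w₁.1 - t * w₂.1) := by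
          simp only [Prod.fst_add, Prod.smul_fst, smul_eq_mul]
          ring
        rw [h1, abs_neg]
        push_cast
        exact c1
      · have h1 : (z₁ + s • w₁).2 - (z₂ + (-t) • w₂).2 =
            -((z₂.2 - z₁.2) - s * w₁.2 - t * w₂.2) := by
          simp only [Prod.snd_add, Prod.smul_snd, smul_eq_mul]
          ring
        rw [h1, abs_neg]
        push_cast
        exact c2
    have h3 : LocPer x w₂ (z₁ + s • w₁) K' := locPer_sub hql hbox le_rfl
    have h4 : LocPer x w₁ (z₁ + s • w₁) K' := locPer_sub hpl (box_self 0 _) (by omega)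
    exact hnp (hp w₁ hw₁ w₂ hw₂ h4 h3)
  -- (C)
  obtain ⟨w₁, hw₁, hall⟩ : ∃ w₁ ∈ W, ∀ z, Sgl x W K' z → LocPer x w₁ z (K' + 2 * B) := by
    by_cases h : ∃ z₀, Sgl x W K' z₀
    · obtain ⟨z₀, hz₀⟩ := h
      obtain ⟨w₁, hw₁, h1⟩ := hloc z₀
      refine ⟨w₁, hw₁, fun z hz => ?_⟩
      obtain ⟨w, hw, h2⟩ := hloc z
      rcases hpar w₁ hw₁ w hw (hB w₁ hw₁ w hw z₀ z hz₀ h1 hz h2) with h3 | h3
      · rw [h3] at h2
        exact h2
      · rw [h3] at h2
        have h4 := locPer_neg h2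
        rwa [neg_neg] at h4
    · obtain ⟨w₁, hw₁, -⟩ := hloc 0
      exact ⟨w₁, hw₁, fun z hz => absurd ⟨z, hz⟩ h⟩
  have hL0 : 0 < Lf B := Nat.factorial_pos _
  have hLz : ((Lf B : ℕ) : ℤ) ≠ 0 := by exact_mod_cast hL0.ne'
  obtain ⟨hw₁0, hw₁B⟩ := hW w₁ hw₁
  refine ⟨(Lf B : ℤ) • w₁, smul_ne_zero hLz hw₁0, ?_, ?_⟩
  · obtain ⟨a1, a2⟩ := hw₁B
    simp only [Prod.fst_zero, Prod.snd_zero, sub_zero] at a1 a2
    constructor
    · simp only [Prod.smul_fst, smul_eq_mul, Prod.fst_zero, sub_zero]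
      rw [abs_mul, abs_of_nonneg (by positivity)]
      push_cast
      exact mul_le_mul_of_nonneg_left a1 (by positivity)
    · simp only [Prod.smul_snd, smul_eq_mul, Prod.snd_zero, sub_zero]
      rw [abs_mul, abs_of_nonneg (by positivity)]
      push_cast
      exact mul_le_mul_of_nonneg_left a2 (by positivity)
  · intro z
    by_cases hz : Sgl x W K' z
    · have key : ∀ n : ℕ, x (z + (n : ℤ) • w₁) = x z := by
        intro n
        induction n with
        | zero => simp
        | succ n ih =>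
          have h1 := (hA w₁ hw₁ z hz (hall z hz) n).2
          have e : z + ((n + 1 : ℕ) : ℤ) • w₁ = (z + (n : ℤ) • w₁) + w₁ := by
            push_cast
            rw [add_smul, one_smul, add_assoc]
          rw [e, h1 _ (box_self _ _) (box_trans (box_self 0 _) (by omega) (box_add hw₁B _))]
          exact ih
      exact key (Lf B)
    · unfold Sgl at hz
      push Not at hz
      obtain ⟨w, hw, w', hw', h1, h2, hnp⟩ := hz
      set D : ℤ := w.1 * w'.2 - w.2 * w'.1 with hD
      have hD0 : D ≠ 0 := fun h => hnp (sub_eq_zero.1 h)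
      have hDle : |D| ≤ 2 * (B : ℤ) ^ 2 := abs_det (hW w hw).2 (hW w' hw').2
      have hdvd : D ∣ ((Lf B : ℕ) : ℤ) := by
        rw [← Int.natAbs_dvd]
        have h3 : D.natAbs ∣ Lf B := by
          refine Nat.dvd_factorial (Int.natAbs_pos.2 hD0) ?_
          have h4 : ((D.natAbs : ℕ) : ℤ) ≤ ((2 * B ^ 2 : ℕ) : ℤ) := by
            rw [Int.natCast_natAbs]
            push_cast
            exact hDle
          exact_mod_cast h4
        exact_mod_cast h3
      obtain ⟨c, hc⟩ := hdvd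
      have hcle : |c| ≤ (Lf B : ℤ) := by
        have h3 : |((Lf B : ℕ) : ℤ)| = |D| * |c| := by rw [hc, abs_mul]
        rw [abs_of_nonneg (by positivity)] at h3
        have h4 : 1 ≤ |D| := Int.one_le_abs hD0
        rw [h3]
        nlinarith [abs_nonneg c]
      set a : ℤ := c * (w₁.1 * w'.2 - w₁.2 * w'.1) with ha
      set b : ℤ := c * (w.1 * w₁.2 - w.2 * w₁.1) with hb
      have hLn : (0 : ℤ) ≤ (Lf B : ℤ) := by positivity
      have hBn : (0 : ℤ) ≤ B := by positivity
      have hale : |a| ≤ (Lf B : ℤ) * (2 * (B : ℤ) ^ 2) := by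
        rw [ha, abs_mul]
        exact mul_le_mul hcle (abs_det hw₁B (hW w' hw').2) (abs_nonneg _) hLn
      have hble : |b| ≤ (Lf B : ℤ) * (2 * (B : ℤ) ^ 2) := by
        rw [hb, abs_mul]
        exact mul_le_mul hcle (abs_det (hW w hw).2 hw₁B) (abs_nonneg _) hLn
      have hsum : (Lf B : ℤ) • w₁ = a • w + b • w' := by
        refine Prod.ext ?_ ?_
        · simp only [Prod.smul_fst, Prod.fst_add, smul_eq_mul]
          rw [hc, hD, ha, hb]
          ring
        · simp only [Prod.smul_snd, Prod.snd_add, smul_eq_mul]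
          rw [hc, hD, ha, hb]
          ring
      obtain ⟨p1, p2⟩ := (hW w hw).2
      obtain ⟨q1, q2⟩ := (hW w' hw').2
      simp only [Prod.fst_zero, Prod.snd_zero, sub_zero] at p1 p2 q1 q2
      have hM : (Lf B : ℤ) * (2 * (B : ℤ) ^ 2) * B = 2 * (Lf B : ℤ) * (B : ℤ) ^ 3 := by ring
      have hterm : ∀ i y : ℤ, |i| ≤ (Lf B : ℤ) * (2 * (B : ℤ) ^ 2) → |y| ≤ B →
          |i * y| ≤ 2 * (Lf B : ℤ) * (B : ℤ) ^ 3 := by
        intro i y hi hy
        rw [abs_mul, ← hM]
        exact mul_le_mul hi hy (abs_nonneg _) (by positivity)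
      have hK'z : ((K' : ℕ) : ℤ) = 4 * (Lf B : ℤ) * (B : ℤ) ^ 3 := by
        rw [hK']
        push_cast
        ring
      have h0K : (0 : ℤ) ≤ (Lf B : ℤ) * (B : ℤ) ^ 3 := by positivity
      have s1 : x (z + a • w) = x z := by
        refine pathZ h1 z a fun i hi => ?_
        constructor
        · have e : (z + i • w).1 - z.1 = i * w.1 := by
            simp only [Prod.fst_add, Prod.smul_fst, smul_eq_mul]
            ring
          rw [e, hK'z]
          exact (hterm i w.1 (hi.trans hale) p1).trans (by linarith)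
        · have e : (z + i • w).2 - z.2 = i * w.2 := by
            simp only [Prod.snd_add, Prod.smul_snd, smul_eq_mul]
            ring
          rw [e, hK'z]
          exact (hterm i w.2 (hi.trans hale) p2).trans (by linarith)
      have s2 : x (z + a • w + b • w') = x (z + a • w) := by
        refine pathZ h2 (z + a • w) b fun i hi => ?_
        constructor
        · have e : (z + a • w + i • w').1 - z.1 = a * w.1 + i * w'.1 := by
            simp only [Prod.fst_add, Prod.smul_fst, smul_eq_mul]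
            ring
          rw [e, hK'z]
          refine (abs_add_le _ _).trans ?_
          have h3 := hterm a w.1 hale p1
          have h4 := hterm i w'.1 (hi.trans hble) q1
          linarith
        · have e : (z + a • w + i • w').2 - z.2 = a * w.2 + i * w'.2 := by
            simp only [Prod.snd_add, Prod.smul_snd, smul_eq_mul]
            ring
          rw [e, hK'z]
          refine (abs_add_le _ _).trans ?_
          have h3 := hterm a w.2 hale p2
          have h4 := hterm i w'.2 (hi.trans hble) q2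
          linarith
      rw [hsum, ← add_assoc, s2, s1]

end Pool.Agent.Q206.PW

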