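import Pool.Agent.Q206.PW.JKon

/-!
# PW-MIN: minimal subshift
-/

set_option autoImplicit false

namespace Pool.Agent.Q206.PW

open Set Topology

section

variable {A : Type}

/-- the functions which agree with `y` on the square of radius `k` -/
def cyl (k : ℕ) (y : Pt → A) : Set (Pt → A) := {x | ∀ u, Box k 0 u → x u = y u}

theorem cyl_self (k : ℕ) (y : Pt → A) : y ∈ cyl k y := fun _ _ => rfl

variable [TopologicalSpace A] [DiscreteTopology A]

theorem coord_open (P : A → Prop) (u : Pt) : IsOpen {x : Pt → A | P (x u)} :=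
  (isOpen_discrete {a | P a}).preimage (continuous_apply u)

theorem cyl_open (k : ℕ) (y : Pt → A) : IsOpen (cyl k y) := by
  have h1 : cyl k y = ⋂ u ∈ {u : Pt | Box k 0 u}, {x : Pt → A | x u = y u} := by
    ext x
    simp [cyl]
  rw [h1]
  exact (box_finite k 0).isOpen_biInter fun u _ => coord_open (fun a => a = y u) u

theorem cyl_closed (k : ℕ) (y : Pt → A) : IsClosed (cyl k y) := by
  have h1 : cyl k y = ⋂ u ∈ {u : Pt | Box k 0 u}, {x : Pt → A | x u = y u} := by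
    ext x
    simp [cyl]
  rw [h1]
  exact isClosed_biInter fun u _ => isClosed_eq (continuous_apply u) continuous_const

theorem clo_closed {X : Set (Pt → A)} (hX : Clo X) : IsClosed X := by
  rw [← closure_subset_iff_isClosed]
  intro y hy
  refine hX y fun k => ?_
  obtain ⟨x, hx1, hx2⟩ := mem_closure_iff.1 hy (cyl k y) (cyl_open k y) (cyl_self k y)
  exact ⟨x, hx2, hx1⟩

omit [DiscreteTopology A] in
theorem cyl_basis (y : Pt → A) (O : Set (Pt → A)) (hO : IsOpen O) (hy : y ∈ O) :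
    ∃ k, cyl k y ⊆ O := by
  obtain ⟨I, s, h1, h2⟩ := isOpen_pi_iff.1 hO y hy
  refine ⟨I.sup fun u => max u.1.natAbs u.2.natAbs, fun x hx => h2 ?_⟩
  intro u hu
  have h3 : Box (I.sup fun u => max u.1.natAbs u.2.natAbs) 0 u :=
    box_mono (Finset.le_sup (f := fun u : Pt => max u.1.natAbs u.2.natAbs) hu) (mem_some_box u)
  rw [hx u h3]
  exact (h1 u hu).2

theorem noper_open (n : ℕ) : IsOpen {x : Pt → A | NoPer x n} := by
  have h1 : {x : Pt → A | NoPer x n} = ⋂ v ∈ {v : Pt | Box n 0 v ∧ v ≠ 0},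
      ⋃ u : Pt, {x : Pt → A | x (u + v) ≠ x u} := by
    ext x
    simp only [NoPer, HasPeriod, mem_ofPred_eq, mem_iInter, mem_iUnion, not_forall]
    constructor
    · intro h v hv
      exact h v hv.2 hv.1
    · intro h v hv0 hv
      exact h v ⟨hv, hv0⟩
  rw [h1]
  refine ((box_finite n 0).subset fun v hv => hv.1).isOpen_biInter fun v _ => isOpen_iUnion fun u => ?_
  exact isOpen_ne_fun (continuous_apply (u + v)) (continuous_apply u)

end

/-- the family -/
structure Fam {A : Type} [TopologicalSpace A] (X Z : Set (Pt → A)) : Prop where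
  sub : Z ⊆ X
  cl : IsClosed Z
  inv : Inv Z
  pat : ∀ k : ℕ, ∃ x ∈ X, NoPer x k ∧ ∀ c : Pt, ∃ z ∈ Z, ∀ u, Box k 0 u → x (u + c) = z u

theorem noper_shift {A : Type} {x : Pt → A} {n : ℕ} (h : NoPer x n) (c : Pt) :
    NoPer (fun u => x (u + c)) n := by
  intro v hv0 hv hp
  refine h v hv0 hv fun u => ?_
  have := hp (u - c)
  simp only [sub_add_cancel] at this
  rwa [show u - c + v + c = u + v by abel] at this

theorem noper_mono {A : Type} {x : Pt → A} {n m : ℕ} (h : NoPer x n) (hm : m ≤ n) : NoPer x m :=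
  fun v hv0 hv => h v hv0 (box_mono hm hv)

section

variable {A : Type} [TopologicalSpace A] [DiscreteTopology A] [Finite A]

theorem fam_chain (X : Set (Pt → A)) (C : Set (Set (Pt → A))) (hC : ∀ Z ∈ C, Fam X Z)
    (hch : IsChain (· ⊆ ·) C) (hne : C.Nonempty) : Fam X (⋂₀ C) := by
  classical
  obtain ⟨Z₀, hZ₀⟩ := hne
  refine ⟨(sInter_subset_of_mem hZ₀).trans (hC Z₀ hZ₀).sub,
    isClosed_sInter fun Z hZ => (hC Z hZ).cl, ?_, ?_⟩
  · intro x hx c Z hZ
    exact (hC Z hZ).inv x (hx Z hZ) c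
  · intro k
    have hfB : Finite {u : Pt | Box k 0 u} := (box_finite k 0).to_subtype
    -- the patterns
    let rs : (Pt → A) → ({u : Pt | Box k 0 u} → A) := fun x u => x u.1
    obtain ⟨Zk, hZk, hmin⟩ : ∃ Zk ∈ C, ∀ Z ∈ C, (rs '' Zk).ncard ≤ (rs '' Z).ncard := by
      have h1 : ∃ n, ∃ Z ∈ C, (rs '' Z).ncard = n := ⟨_, Z₀, hZ₀, rfl⟩
      obtain ⟨Z, hZ, hn⟩ := Nat.find_spec h1
      refine ⟨Z, hZ, fun Z' hZ' => ?_⟩
      rw [hn]
      exact Nat.find_min' h1 ⟨Z', hZ', rfl⟩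
    have hsub : ∀ Z ∈ C, rs '' Zk ⊆ rs '' Z := by
      intro Z hZ
      rcases hch.total hZk hZ with h | h
      · exact image_mono h
      · have h2 : rs '' Z ⊆ rs '' Zk := image_mono h
        rw [Set.eq_of_subset_of_ncard_le h2 (hmin Z hZ) (Set.toFinite _)]
    obtain ⟨x, hxX, hxn, hxp⟩ := (hC Zk hZk).pat k
    refine ⟨x, hxX, hxn, fun c => ?_⟩
    obtain ⟨z, hz, hzx⟩ := hxp c
    -- compactness
    have hcomp : (⋂ Z : C, (Z.1 ∩ cyl k z)).Nonempty := by
      have hneC : Nonempty C := ⟨⟨Z₀, hZ₀⟩⟩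
      refine IsCompact.nonempty_iInter_of_directed_nonempty_isCompact_isClosed _ ?_ ?_ ?_ ?_
      · intro Z Z'
        rcases hch.total Z.2 Z'.2 with h | h
        · exact ⟨Z, Subset.rfl, inter_subset_inter_left _ h⟩
        · exact ⟨Z', inter_subset_inter_left _ h, Subset.rfl⟩
      · intro Z
        obtain ⟨z', hz', he⟩ := hsub Z.1 Z.2 ⟨z, hz, rfl⟩
        refine ⟨z', hz', fun u hu => ?_⟩
        exact congrFun he ⟨u, hu⟩
      · intro Z
        exact ((hC Z.1 Z.2).cl.inter (cyl_closed k z)).isCompact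
      · intro Z
        exact (hC Z.1 Z.2).cl.inter (cyl_closed k z)
    obtain ⟨z', hz'⟩ := hcomp
    rw [mem_iInter] at hz'
    refine ⟨z', fun Z hZ => (hz' ⟨Z, hZ⟩).1, fun u hu => ?_⟩
    rw [hzx u hu, (hz' ⟨Z₀, hZ₀⟩).2 u hu]

theorem fam_min (X Z : Set (Pt → A)) (hZ : Fam X Z) (hmin : ∀ Z', Fam X Z' → Z' ⊆ Z → Z ⊆ Z')
    (hper : ∀ x ∈ X, ∃ v, v ≠ 0 ∧ HasPeriod x v) :
    ∃ R : ℕ, ∀ z ∈ Z, ∃ v, v ≠ 0 ∧ Box R 0 v ∧ HasPeriod z v := by
  by_contra hcon
  push Not at hcon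
  have hno : ∀ R : ℕ, ∃ z ∈ Z, NoPer z R := by
    intro R
    obtain ⟨z, hz, h⟩ := hcon R
    exact ⟨z, hz, h⟩
  have hdense : ∀ (n : ℕ) (z₀ : Pt → A), z₀ ∈ Z → ∀ k : ℕ, ∃ z ∈ Z, z ∈ cyl k z₀ ∧ NoPer z n := by
    intro n z₀ hz₀ k
    by_contra hc
    push Not at hc
    have hF : Fam X {z | z ∈ Z ∧ ∀ c : Pt, (fun u => z (u + c)) ∉ cyl k z₀} := by
      refine ⟨fun z hz => hZ.sub hz.1, ?_, ?_, ?_⟩
      · have h1 : {z | z ∈ Z ∧ ∀ c : Pt, (fun u => z (u + c)) ∉ cyl k z₀} =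
            Z ∩ ⋂ c : Pt, {z | (fun u => z (u + c)) ∉ cyl k z₀} := by
          ext z
          simp
        rw [h1]
        refine hZ.cl.inter (isClosed_iInter fun c => ?_)
        have h2 : Continuous fun z : Pt → A => fun u => z (u + c) :=
          continuous_pi fun u => continuous_apply (u + c)
        exact ((cyl_open k z₀).preimage h2).isClosed_compl
      · rintro z ⟨hz1, hz2⟩ c
        refine ⟨hZ.inv z hz1 c, fun c' => ?_⟩
        have h3 := hz2 (c' + c)
        simpa only [add_assoc] using h3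
      · intro k'
        obtain ⟨z, hz, hzn⟩ := hno (max n k')
        refine ⟨z, hZ.sub hz, noper_mono hzn (le_max_right _ _), fun c => ?_⟩
        refine ⟨fun u => z (u + c), ⟨hZ.inv z hz c, fun c' hcc => ?_⟩, fun u _ => rfl⟩
        have h4 : (fun u => z (u + c' + c)) ∈ Z := by
          have := hZ.inv _ (hZ.inv z hz c) c'
          exact this
        refine hc _ h4 hcc ?_
        have h5 : NoPer (fun u => z (u + (c' + c))) n :=
          noper_shift (noper_mono hzn (le_max_left _ _)) (c' + c)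
        simpa only [add_assoc] using h5
    exact ((hmin _ hF (fun z hz => hz.1) hz₀).2 0) (by simpa using cyl_self k z₀)
  -- Baire
  have hcompact : CompactSpace Z := isCompact_iff_compactSpace.1 hZ.cl.isCompact
  have hD : Dense (⋂ n : ℕ, {z : Z | NoPer z.1 n}) := by
    refine dense_iInter_of_isOpen_nat (fun n => ?_) fun n => ?_
    · exact (noper_open n).preimage continuous_subtype_val
    · rw [dense_iff_inter_open]
      rintro U hU ⟨z₀, hz₀⟩
      obtain ⟨O, hO, rfl⟩ := isOpen_induced_iff.1 hU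
      obtain ⟨k, hk⟩ := cyl_basis z₀.1 O hO hz₀
      obtain ⟨z, hz, hzc, hzn⟩ := hdense n z₀.1 z₀.2 k
      exact ⟨⟨z, hz⟩, hk hzc, hzn⟩
  have hZne : Nonempty Z := by
    obtain ⟨z, hz, _⟩ := hno 0
    exact ⟨⟨z, hz⟩⟩
  obtain ⟨z, hz⟩ := hD.nonempty
  rw [mem_iInter] at hz
  obtain ⟨v, hv0, hv⟩ := hper z.1 (hZ.sub z.2)
  exact hz (max v.1.natAbs v.2.natAbs) v hv0 (mem_some_box v) hv

end

theorem j_MIN : S_MIN := by
  intro A _ X hX hinv hper hno
  let tA : TopologicalSpace A := ⊥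
  have dA : DiscreteTopology A := ⟨rfl⟩
  have hXF : Fam X X := by
    refine ⟨Subset.rfl, clo_closed hX, hinv, fun k => ?_⟩
    obtain ⟨x, hx, hxn⟩ := hno k
    exact ⟨x, hx, hxn, fun c => ⟨_, hinv x hx c, fun u _ => rfl⟩⟩
  obtain ⟨Z, hZ⟩ := zorn_superset {Z | Fam X Z} (by
    intro C hC hch
    rcases C.eq_empty_or_nonempty with h | h
    · refine ⟨X, hXF, ?_⟩
      rw [h]
      intro s hs
      exact absurd hs (notMem_empty s)
    · exact ⟨⋂₀ C, fam_chain X C (fun Z hZ => hC hZ) hch h, fun s hs => sInter_subset_of_mem hs⟩)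
  have hZF : Fam X Z := hZ.1
  refine ⟨Z, fam_min X Z hZF (fun Z' hZ' hsub => hZ.2 hZ' hsub) hper, hZF.pat⟩

end Pool.Agent.Q206.PW

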