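import Pool.Agent.Q206.PW.Stm

/-!
# PW-MUL: multiples of local periods, primitive vectors
-/

set_option autoImplicit false

namespace Pool.Agent.Q206.PW

/-- parallel primitive vectors are equal or opposite -/
theorem primitive_parallel {a b c d : ℤ} (h1 : IsCoprime a b) (h2 : IsCoprime c d)
    (h : a * d = b * c) : (c = a ∧ d = b) ∨ (c = -a ∧ d = -b) := by
  have hac : a ∣ c := by
    have : a ∣ b * c := ⟨d, h.symm⟩
    exact h1.dvd_of_dvd_mul_left this
  have hca : c ∣ a := by
    have : c ∣ d * a := ⟨b, by rw [mul_comm d a, h, mul_comm]⟩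
    exact h2.dvd_of_dvd_mul_left this
  have hbd : b ∣ d := by
    have : b ∣ a * d := ⟨c, h⟩
    exact h1.symm.dvd_of_dvd_mul_left this
  have hdb : d ∣ b := by
    have : d ∣ c * b := ⟨a, by rw [mul_comm c b, ← h, mul_comm]⟩
    exact h2.symm.dvd_of_dvd_mul_left this
  have e1 : c = a ∨ c = -a := by
    have := Int.natAbs_dvd_natAbs.2 hac
    have := Int.natAbs_dvd_natAbs.2 hca
    have h3 : c.natAbs = a.natAbs := Nat.dvd_antisymm ‹_› ‹_›
    exact Int.natAbs_eq_natAbs_iff.1 h3
  have e2 : d = b ∨ d = -b := by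
    have := Int.natAbs_dvd_natAbs.2 hbd
    have := Int.natAbs_dvd_natAbs.2 hdb
    have h3 : d.natAbs = b.natAbs := Nat.dvd_antisymm ‹_› ‹_›
    exact Int.natAbs_eq_natAbs_iff.1 h3
  rcases e1 with e1 | e1 <;> rcases e2 with e2 | e2
  · exact Or.inl ⟨e1, e2⟩
  · subst e1
    subst e2
    have : c * b = 0 := by linarith
    rcases mul_eq_zero.1 this with h0 | h0
    · right
      exact ⟨by rw [h0]; simp, rfl⟩
    · left
      exact ⟨rfl, by rw [h0]; simp⟩
  · subst e1
    subst e2
    have : a * d = 0 := by linarith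
    rcases mul_eq_zero.1 this with h0 | h0
    · left
      exact ⟨by rw [h0]; simp, rfl⟩
    · right
      exact ⟨rfl, by rw [h0]; simp⟩
  · exact Or.inr ⟨e1, e2⟩

/-- the points between two points of a square on a line are in the square: one coordinate -/
theorem between_abs {k s t : ℤ} {i j : ℕ} (hj : j ≤ i) (h0 : |s| ≤ k) (h1 : |s + i * t| ≤ k) :
    |s + j * t| ≤ k := by
  obtain ⟨a1, a2⟩ := abs_le.1 h0
  obtain ⟨b1, b2⟩ := abs_le.1 h1
  have hj' : (j : ℤ) ≤ i := by exact_mod_cast hj
  have hj0 : (0 : ℤ) ≤ j := by positivity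
  rw [abs_le]
  rcases le_total 0 t with ht | ht
  · have m1 : (j : ℤ) * t ≤ i * t := mul_le_mul_of_nonneg_right hj' ht
    have m2 : 0 ≤ (j : ℤ) * t := mul_nonneg hj0 ht
    constructor <;> linarith
  · have m1 : (i : ℤ) * t ≤ j * t := mul_le_mul_of_nonpos_right hj' ht
    have m2 : (j : ℤ) * t ≤ 0 := mul_nonpos_of_nonneg_of_nonpos hj0 ht
    constructor <;> linarith

/-- multiples of local periods are local periods -/
theorem locPer_smul {A : Type} {x : Pt → A} {v z : Pt} {k : ℕ} (h : LocPer x v z k) (i : ℕ) :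
    LocPer x ((i : ℤ) * v.1, (i : ℤ) * v.2) z k := by
  intro u hu hu'
  have hb : ∀ j : ℕ, j ≤ i → Box k z (u + ((j : ℤ) * v.1, (j : ℤ) * v.2)) := by
    intro j hj
    have e1 := between_abs (s := u.1 - z.1) (t := v.1) hj hu.1 (by
      have := hu'.1
      simp only [Prod.fst_add] at this
      rw [show u.1 - z.1 + (i : ℤ) * v.1 = u.1 + i * v.1 - z.1 by ring]
      exact this)
    have e2 := between_abs (s := u.2 - z.2) (t := v.2) hj hu.2 (by
      have := hu'.2
      simp only [Prod.snd_add] at this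
      rw [show u.2 - z.2 + (i : ℤ) * v.2 = u.2 + i * v.2 - z.2 by ring]
      exact this)
    refine ⟨?_, ?_⟩
    · simp only [Prod.fst_add]
      rw [show u.1 + (j : ℤ) * v.1 - z.1 = u.1 - z.1 + j * v.1 by ring]
      exact e1
    · simp only [Prod.snd_add]
      rw [show u.2 + (j : ℤ) * v.2 - z.2 = u.2 - z.2 + j * v.2 by ring]
      exact e2
  have hx : ∀ j : ℕ, j ≤ i → x (u + ((j : ℤ) * v.1, (j : ℤ) * v.2)) = x u := by
    intro j
    induction j with
    | zero =>
      intro _
      congr 1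
      ext <;> simp
    | succ j ih =>
      intro hj
      have hstep : u + (((j + 1 : ℕ) : ℤ) * v.1, ((j + 1 : ℕ) : ℤ) * v.2)
          = u + ((j : ℤ) * v.1, (j : ℤ) * v.2) + v := by
        ext
        · simp only [Prod.fst_add]
          push_cast
          ring
        · simp only [Prod.snd_add]
          push_cast
          ring
      rw [hstep, h _ (hb j (by omega)) (by rw [← hstep]; exact hb (j + 1) hj)]
      exact ih (by omega)
  exact hx i le_rfl

/-- the data of a nonzero vector in the square of radius `R` -/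
theorem primitive_data {R : ℕ} {v : Pt} (h0 : v ≠ 0) (hR : Box R 0 v) :
    ∃ (i : ℕ) (p q : ℤ), IsCoprime p q ∧ 0 < i ∧ i ≤ R.factorial ∧
      (i : ℤ) * v.1 = R.factorial * p ∧ (i : ℤ) * v.2 = R.factorial * q := by
  obtain ⟨a, b⟩ := v
  obtain ⟨h1, h2⟩ := hR
  simp only [Prod.fst_zero, Prod.snd_zero, sub_zero] at h1 h2
  have hne : a ≠ 0 ∨ b ≠ 0 := by
    by_contra hcon
    push Not at hcon
    exact h0 (by ext <;> simp [hcon.1, hcon.2])
  have hg : 0 < Int.gcd a b := by
    rcases hne with h | h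
    · exact Int.gcd_pos_of_ne_zero_left _ h
    · exact Int.gcd_pos_of_ne_zero_right _ h
  have hgR : Int.gcd a b ≤ R := by
    rw [Int.abs_eq_natAbs] at h1 h2
    rcases hne with h | h
    · have := Int.gcd_dvd_natAbs_left a b
      have h3 := Nat.le_of_dvd (Int.natAbs_pos.2 h) this
      omega
    · have := Int.gcd_dvd_natAbs_right a b
      have h3 := Nat.le_of_dvd (Int.natAbs_pos.2 h) this
      omega
  obtain ⟨i, hi⟩ : Int.gcd a b ∣ R.factorial := Nat.dvd_factorial hg hgR
  have hfac : 0 < R.factorial := Nat.factorial_pos R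
  have hi0 : 0 < i := by
    rcases Nat.eq_zero_or_pos i with h | h
    · rw [h] at hi; omega
    · exact h
  refine ⟨i, a / Int.gcd a b, b / Int.gcd a b, ?_, hi0, ?_, ?_, ?_⟩
  · exact Int.isCoprime_iff_gcd_eq_one.2 (Int.gcd_div_gcd_div_gcd hg)
  · rw [hi]
    exact Nat.le_mul_of_pos_left _ hg
  · obtain ⟨c, hc⟩ := Int.gcd_dvd_left a b
    have hg' : ((Int.gcd a b : ℕ) : ℤ) ≠ 0 := by exact_mod_cast hg.ne'
    have : a / (Int.gcd a b : ℤ) = c := Int.ediv_eq_of_eq_mul_right hg' hc
    rw [this, hi]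
    push_cast
    linear_combination (i : ℤ) * hc
  · obtain ⟨c, hc⟩ := Int.gcd_dvd_right a b
    have hg' : ((Int.gcd a b : ℕ) : ℤ) ≠ 0 := by exact_mod_cast hg.ne'
    have : b / (Int.gcd a b : ℤ) = c := Int.ediv_eq_of_eq_mul_right hg' hc
    rw [this, hi]
    push_cast
    linear_combination (i : ℤ) * hc

/-- **PW-MUL.** -/
theorem mul : S_MUL := by
  intro hloc R A x hx
  have hfac : (0 : ℤ) < R.factorial := by exact_mod_cast Nat.factorial_pos R
  obtain ⟨v, hv0, hvB, hv⟩ := hloc (R.factorial * R)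
    {w | ∃ (v : Pt) (i : ℕ) (p q : ℤ), v ≠ 0 ∧ Box R 0 v ∧ IsCoprime p q ∧ 0 < i ∧
      i ≤ R.factorial ∧ (i : ℤ) * v.1 = R.factorial * p ∧ (i : ℤ) * v.2 = R.factorial * q ∧
      w = ((i : ℤ) * v.1, (i : ℤ) * v.2)} (by
      rintro w ⟨v, i, p, q, h0, hB, hpq, hi, hile, e1, e2, rfl⟩
      refine ⟨?_, ?_, ?_⟩
      · intro hcon
        have hi' : (i : ℤ) ≠ 0 := by exact_mod_cast hi.ne'
        apply h0
        have c1 := congrArg Prod.fst hcon
        have c2 := congrArg Prod.snd hcon
        simp only [Prod.fst_zero, Prod.snd_zero, mul_eq_zero, hi', false_or] at c1 c2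
        ext
        · exact c1
        · exact c2
      · have := hB.1
        simp only [Prod.fst_zero, sub_zero] at this ⊢
        rw [abs_mul, Nat.abs_cast]
        push_cast
        exact mul_le_mul (by exact_mod_cast hile) this (abs_nonneg _) (by positivity)
      · have := hB.2
        simp only [Prod.snd_zero, sub_zero] at this ⊢
        rw [abs_mul, Nat.abs_cast]
        push_cast
        exact mul_le_mul (by exact_mod_cast hile) this (abs_nonneg _) (by positivity)) (by
      rintro w ⟨v, i, p, q, h0, hB, hpq, hi, hile, e1, e2, rfl⟩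
        w' ⟨v', i', p', q', h0', hB', hpq', hi', hile', e1', e2', rfl⟩ hpar
      have hp : p * q' = q * p' := by
        have hh : (R.factorial * p) * (R.factorial * q')
            = ((R.factorial : ℤ) * q) * (R.factorial * p') := by
          rw [← e1, ← e2', ← e2, ← e1']
          exact hpar
        have : ((R.factorial : ℤ) * R.factorial) * (p * q') = (R.factorial * R.factorial) * (q * p') := by
          linarith
        exact mul_left_cancel₀ (mul_pos hfac hfac).ne' this
      rcases primitive_parallel hpq hpq' hp with ⟨h3, h4⟩ | ⟨h3, h4⟩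
      · left
        rw [e1, e2, e1', e2', h3, h4]
      · right
        rw [e1, e2, e1', e2', h3, h4]
        ext <;> simp) A x (by
      intro z
      obtain ⟨v, h0, hB, hper⟩ := hx z
      obtain ⟨i, p, q, hpq, hi, hile, e1, e2⟩ := primitive_data h0 hB
      exact ⟨((i : ℤ) * v.1, (i : ℤ) * v.2), ⟨v, i, p, q, h0, hB, hpq, hi, hile, e1, e2, rfl⟩,
        locPer_smul hper i⟩)
  exact ⟨v, hv0, hv, hvB⟩

end Pool.Agent.Q206.PW
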