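import Pool.Agent.Q206.PW.Stm2
import Pool.Agent.Q224.PW.JRec

/-!
# PW-TOR: it is primitive recursive whether the doubly periodic map is a tiling
-/

set_option autoImplicit false

namespace Pool.Agent.Q206.PW

open Primrec

/-- the number `c` describes a tiling of the torus -/
def TT (s : List Tile × ℕ × ℕ) : Prop :=
  ∀ i < s.2.1 + 1, ∀ j < s.2.1 + 1, D s (i + s.2.1) (j + s.2.1) ∈ s.1 ∧
    ((D s (i + s.2.1) (j + s.2.1)).2.1 = (D s ((i + 1) % (s.2.1 + 1) + s.2.1) (j + s.2.1)).1) ∧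
    ((D s (i + s.2.1) (j + s.2.1)).2.2.2 =
      (D s (i + s.2.1) ((j + 1) % (s.2.1 + 1) + s.2.1)).2.2.1)

lemma TTP : PrimrecPred (fun a : List Tile × ℕ × ℕ => TT a) := by
  have h0 : Primrec (fun a : List Tile × ℕ × ℕ => a.2.1 + 1) :=
    Primrec.succ.comp (Primrec.fst.comp Primrec.snd)
  refine allLt (α := List Tile × ℕ × ℕ) (R := fun (i : ℕ) (s : List Tile × ℕ × ℕ) =>
    ∀ j < s.2.1 + 1, D s (i + s.2.1) (j + s.2.1) ∈ s.1 ∧
    ((D s (i + s.2.1) (j + s.2.1)).2.1 = (D s ((i + 1) % (s.2.1 + 1) + s.2.1) (j + s.2.1)).1) ∧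
    ((D s (i + s.2.1) (j + s.2.1)).2.2.2 =
      (D s (i + s.2.1) ((j + 1) % (s.2.1 + 1) + s.2.1)).2.2.1)) h0 ?_
  refine allLt (α := ℕ × (List Tile × ℕ × ℕ)) (R := fun (j : ℕ) (x : ℕ × (List Tile × ℕ × ℕ)) =>
    D x.2 (x.1 + x.2.2.1) (j + x.2.2.1) ∈ x.2.1 ∧
    ((D x.2 (x.1 + x.2.2.1) (j + x.2.2.1)).2.1 =
      (D x.2 ((x.1 + 1) % (x.2.2.1 + 1) + x.2.2.1) (j + x.2.2.1)).1) ∧
    ((D x.2 (x.1 + x.2.2.1) (j + x.2.2.1)).2.2.2 =
      (D x.2 (x.1 + x.2.2.1) ((j + 1) % (x.2.2.1 + 1) + x.2.2.1)).2.2.1)) (h0.comp Primrec.snd) ?_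
  have hs : Primrec (fun y : ℕ × ℕ × (List Tile × ℕ × ℕ) => y.2.2) :=
    Primrec.snd.comp Primrec.snd
  have hn : Primrec (fun y : ℕ × ℕ × (List Tile × ℕ × ℕ) => y.2.2.2.1) :=
    Primrec.fst.comp (Primrec.snd.comp hs)
  have hi : Primrec (fun y : ℕ × ℕ × (List Tile × ℕ × ℕ) => y.2.1) :=
    Primrec.fst.comp Primrec.snd
  have hj : Primrec (fun y : ℕ × ℕ × (List Tile × ℕ × ℕ) => y.1) := Primrec.fst
  have hi1 : Primrec (fun y : ℕ × ℕ × (List Tile × ℕ × ℕ) =>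
      (y.2.1 + 1) % (y.2.2.2.1 + 1) + y.2.2.2.1) :=
    addP (Primrec.nat_mod.comp (Primrec.succ.comp hi) (Primrec.succ.comp hn)) hn
  have hj1 : Primrec (fun y : ℕ × ℕ × (List Tile × ℕ × ℕ) =>
      (y.1 + 1) % (y.2.2.2.1 + 1) + y.2.2.2.1) :=
    addP (Primrec.nat_mod.comp (Primrec.succ.comp hj) (Primrec.succ.comp hn)) hn
  have hin := addP hi hn
  have hjn := addP hj hn
  have hD := DP hs hin hjn
  have hDi := DP hs hi1 hjn
  have hDj := DP hs hin hj1
  exact (memP hD (Primrec.fst.comp hs)).and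
    ((eqP (Primrec.fst.comp (Primrec.snd.comp hD)) (Primrec.fst.comp hDi)).and
    (eqP (Primrec.snd.comp (Primrec.snd.comp (Primrec.snd.comp hD)))
      (Primrec.fst.comp (Primrec.snd.comp (Primrec.snd.comp hDj)))))

lemma tor_eq (S : List Tile) (n c : ℕ) (u : Pt) {i j : ℕ}
    (hi : u.1 % ((n : ℤ) + 1) = i) (hj : u.2 % ((n : ℤ) + 1) = j) :
    tor S n c u = D (S, n, c) (i + n) (j + n) := by
  rw [tor, dec_eq, hi, hj]
  have e1 : ((i : ℤ) + n).toNat = i + n := by omega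
  have e2 : ((j : ℤ) + n).toNat = j + n := by omega
  simp only [e1, e2]

lemma emod_cast (n i : ℕ) : ((i : ℤ) + 1) % ((n : ℤ) + 1) = (((i + 1) % (n + 1) : ℕ) : ℤ) := by
  push_cast
  rfl

lemma TT_iff (S : List Tile) (n c : ℕ) : IsTiling S (tor S n c) ↔ TT (S, n, c) := by
  have hn : (0 : ℤ) < (n : ℤ) + 1 := by positivity
  constructor
  · rintro ⟨h1, h2, h3⟩ i hi j hj
    have hi' : i < n + 1 := hi
    have hj' : j < n + 1 := hj
    have ei : ((i : ℤ)) % ((n : ℤ) + 1) = i := Int.emod_eq_of_lt (by omega) (by omega)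
    have ej : ((j : ℤ)) % ((n : ℤ) + 1) = j := Int.emod_eq_of_lt (by omega) (by omega)
    refine ⟨?_, ?_, ?_⟩
    · have := h1 ((i : ℤ), (j : ℤ))
      rwa [tor_eq S n c _ ei ej] at this
    · have := h2 ((i : ℤ), (j : ℤ))
      rw [tor_eq S n c _ ei ej, tor_eq (i := (i + 1) % (n + 1)) (j := j) S n c _
        (by simp only [Prod.mk_add_mk]; exact emod_cast n i)
        (by simp only [Prod.mk_add_mk, add_zero]; exact ej)] at this
      exact this
    · have := h3 ((i : ℤ), (j : ℤ))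
      rw [tor_eq S n c _ ei ej, tor_eq (i := i) (j := (j + 1) % (n + 1)) S n c _
        (by simp only [Prod.mk_add_mk, add_zero]; exact ei)
        (by simp only [Prod.mk_add_mk]; exact emod_cast n j)] at this
      exact this
  · intro h
    have key : ∀ u : Pt, ∃ i j : ℕ, i < n + 1 ∧ j < n + 1 ∧ u.1 % ((n : ℤ) + 1) = i ∧
        u.2 % ((n : ℤ) + 1) = j := by
      intro u
      have g1 := Int.emod_nonneg u.1 hn.ne'
      have g2 := Int.emod_lt_of_pos u.1 hn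
      have g3 := Int.emod_nonneg u.2 hn.ne'
      have g4 := Int.emod_lt_of_pos u.2 hn
      exact ⟨(u.1 % ((n : ℤ) + 1)).toNat, (u.2 % ((n : ℤ) + 1)).toNat, by omega, by omega,
        by omega, by omega⟩
    have step : ∀ (a : ℤ) (i : ℕ), a % ((n : ℤ) + 1) = i →
        (a + 1) % ((n : ℤ) + 1) = (((i + 1) % (n + 1) : ℕ) : ℤ) := by
      intro a i ha
      rw [← emod_cast, ← ha, Int.emod_add_emod]
    refine ⟨fun u => ?_, fun u => ?_, fun u => ?_⟩
    · obtain ⟨i, j, hi, hj, ei, ej⟩ := key u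
      rw [tor_eq S n c _ ei ej]
      exact (h i hi j hj).1
    · obtain ⟨i, j, hi, hj, ei, ej⟩ := key u
      rw [tor_eq S n c _ ei ej, tor_eq (i := (i + 1) % (n + 1)) (j := j) S n c _
        (by simp only [Prod.fst_add]; exact step _ _ ei)
        (by simp only [Prod.snd_add, add_zero]; exact ej)]
      exact (h i hi j hj).2.1
    · obtain ⟨i, j, hi, hj, ei, ej⟩ := key u
      rw [tor_eq S n c _ ei ej, tor_eq (i := i) (j := (j + 1) % (n + 1)) S n c _
        (by simp only [Prod.fst_add, add_zero]; exact ei)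
        (by simp only [Prod.snd_add]; exact step _ _ ej)]
      exact (h i hi j hj).2.2

theorem t_TOR : S_TOR := TTP.of_eq fun q => (TT_iff q.1 q.2.1 q.2.2).symm

end Pool.Agent.Q206.PW
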