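import Pool.Agent.Q206.PW.Stm2
import Pool.Agent.Q206.PW.JKon
import Pool.Agent.Helper446.RE

/-!
# Prototile sets all of whose tilings are periodic: the assembly
-/

set_option autoImplicit false

namespace Pool.Agent.Q206.PW

theorem box_trans {k l : ℕ} {a b c : Pt} (h1 : Box k a b) (h2 : Box l b c) : Box (k + l) a c := by
  obtain ⟨h1, h3⟩ := h1
  obtain ⟨h2, h4⟩ := h2
  rw [abs_le] at h1 h2 h3 h4
  constructor <;> rw [abs_le] <;> push_cast <;> constructor <;> linarith

theorem box_shift {k : ℕ} {z u c : Pt} (h : Box k z u) : Box k (z + c) (u + c) := by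
  obtain ⟨h1, h2⟩ := h
  constructor
  · simpa using h1
  · simpa using h2

theorem box_sub {k : ℕ} {z u : Pt} (h : Box k z u) : Box k 0 (u - z) := by
  have := box_shift (c := -z) h
  rwa [add_neg_cancel, ← sub_eq_add_neg] at this

/-- **Main theorem**: if all elements of a closed invariant set have a nonzero period, then the
periods can be chosen in a bounded square. -/
theorem bounded (hLOC : S_LOC2) (hMUL : S_MUL) (hMIN : S_MIN) (A : Type) [Finite A]
    (X : Set (Pt → A)) (hC : Clo X) (hI : Inv X) (hP : ∀ x ∈ X, ∃ v, v ≠ 0 ∧ HasPeriod x v) :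
    ∃ n : ℕ, ∀ x ∈ X, ∃ v, v ≠ 0 ∧ Box n 0 v ∧ HasPeriod x v := by
  by_contra hn
  have hn' : ∀ n, ∃ x ∈ X, NoPer x n := by
    intro n
    by_contra h
    refine hn ⟨n, fun x hx => ?_⟩
    by_contra h'
    exact h ⟨x, hx, fun v hv hb hp => h' ⟨v, hv, hb, hp⟩⟩
  obtain ⟨Z, ⟨R, hR⟩, hZ⟩ := hMIN A X hC hI hP hn'
  obtain ⟨x, hx, hnp, hbox⟩ := hZ (max (Kf (R.factorial * R))
    (Lf (R.factorial * R) * (R.factorial * R)))
  obtain ⟨v, hv0, hvp, hvb⟩ := hMUL hLOC R A x (by
    intro c
    obtain ⟨z, hz, hzx⟩ := hbox c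
    obtain ⟨v, hv0, hvb, hvp⟩ := hR z hz
    refine ⟨v, hv0, hvb, ?_⟩
    intro u hu hu'
    have h1 := box_sub hu
    have h2 := box_sub hu'
    have h3 := hzx _ (box_mono (le_max_left _ _) h1)
    have h4 := hzx _ (box_mono (le_max_left _ _) h2)
    rw [sub_add_cancel] at h3 h4
    rw [h3, h4]
    have h5 := hvp (u - c)
    rwa [sub_add_eq_add_sub] at h5)
  exact hnp v hv0 (box_mono (le_max_right _ _) hvb) hvp

/-- The tilings as maps into the finite type of the prototiles. -/
def XS (S : List Tile) : Set (Pt → {t : Tile // t ∈ S}) := {x | IsTiling S fun u => (x u).1}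

theorem clo_XS (S : List Tile) : Clo (XS S) := by
  intro y hy
  refine ⟨fun u => (y u).2, fun u => ?_, fun u => ?_⟩
  · obtain ⟨x, hx, h⟩ := hy (max u.1.natAbs u.2.natAbs + 1)
    have h1 := h u (box_mono (Nat.le_succ _) (mem_some_box u))
    have h2 := h (u + (1, 0)) (box_trans (mem_some_box u) (by constructor <;> simp))
    have h3 := hx.2.1 u
    simp only [h1, h2] at h3
    exact h3
  · obtain ⟨x, hx, h⟩ := hy (max u.1.natAbs u.2.natAbs + 1)
    have h1 := h u (box_mono (Nat.le_succ _) (mem_some_box u))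
    have h2 := h (u + (0, 1)) (box_trans (mem_some_box u) (by constructor <;> simp))
    have h3 := hx.2.2 u
    simp only [h1, h2] at h3
    exact h3

theorem shift_tiling {S : List Tile} {T : Pt → Tile} (h : IsTiling S T) (c : Pt) :
    IsTiling S fun u => T (u + c) := by
  refine ⟨fun u => h.1 _, fun u => ?_, fun u => ?_⟩
  · have := h.2.1 (u + c)
    rwa [add_right_comm] at this
  · have := h.2.2 (u + c)
    rwa [add_right_comm] at this

theorem inv_XS (S : List Tile) : Inv (XS S) := fun _ hx c => shift_tiling hx c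

/-- all tilings by `S` are periodic -/
def AllPer (S : List Tile) : Prop := ∀ T, IsTiling S T → ∃ v, v ≠ 0 ∧ HasPeriod T v

theorem bounded_tilings (hLOC : S_LOC2) (hMUL : S_MUL) (hMIN : S_MIN) {S : List Tile}
    (h : AllPer S) : ∃ n : ℕ, ∀ T, IsTiling S T → ∃ v, v ≠ 0 ∧ Box n 0 v ∧ HasPeriod T v := by
  obtain ⟨n, hn⟩ := bounded hLOC hMUL hMIN {t : Tile // t ∈ S} (XS S) (clo_XS S) (inv_XS S) (by
    intro x hx
    obtain ⟨v, hv, hp⟩ := h _ hx
    exact ⟨v, hv, fun u => Subtype.ext (hp u)⟩)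
  refine ⟨n, fun T hT => ?_⟩
  obtain ⟨v, hv, hb, hp⟩ := hn (fun u => ⟨T u, hT.1 u⟩) hT
  exact ⟨v, hv, hb, fun u => congrArg Subtype.val (hp u)⟩

theorem box_tiling_of {S : List Tile} {T : Pt → Tile} (h : IsTiling S T) (m : ℕ) :
    BoxTiling S m T := ⟨fun u _ => h.1 u, fun u _ _ => h.2.1 u, fun u _ _ => h.2.2 u⟩

theorem box_tiling_mono {S : List Tile} {T : Pt → Tile} {m n : ℕ} (hmn : m ≤ n)
    (h : BoxTiling S n T) : BoxTiling S m T :=
  ⟨fun u hu => h.1 u (box_mono hmn hu),
   fun u hu hu' => h.2.1 u (box_mono hmn hu) (box_mono hmn hu'),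
   fun u hu hu' => h.2.2 u (box_mono hmn hu) (box_mono hmn hu')⟩

/-- the radius of the squares -/
def Kr (R : ℕ) : ℕ := Kf (R.factorial * R)

theorem allPer_iff (hLOC : S_LOC2) (hMUL : S_MUL) (hMIN : S_MIN) (hKON : S_KON) (S : List Tile) :
    AllPer S ↔ ∃ R m : ℕ, ∀ T, BoxTiling S (m + Kr R) T →
      ∃ v, v ≠ 0 ∧ Box R 0 v ∧ LocPer T v 0 (Kr R) := by
  constructor
  · intro h
    obtain ⟨R, hR⟩ := bounded_tilings hLOC hMUL hMIN h
    refine ⟨R, ?_⟩
    by_contra hc
    push Not at hc
    choose T hT hTv using hc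
    obtain ⟨T', hT', hTT⟩ := hKON S T fun m => box_tiling_mono (Nat.le_add_right m _) (hT m)
    obtain ⟨v, hv0, hvb, hvp⟩ := hR T' hT'
    obtain ⟨m, hm, hTm⟩ := hTT (Kr R)
    refine hTv m v hv0 hvb fun u hu hu' => ?_
    rw [← hTm u hu, ← hTm _ hu']
    exact hvp u
  · rintro ⟨R, m, h⟩ T hT
    obtain ⟨v, hv0, hvp, -⟩ := hMUL hLOC R Tile T (by
      intro z
      obtain ⟨v, hv0, hvb, hvp⟩ := h _ (box_tiling_of (shift_tiling hT z) (m + Kr R))
      refine ⟨v, hv0, hvb, fun u hu hu' => ?_⟩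
      have h1 : T (u - z + v + z) = T (u - z + z) := hvp (u - z) (box_sub hu) (by
        have := box_sub hu'
        rwa [← sub_add_eq_add_sub] at this)
      have e1 : u - z + v + z = u + v := by abel
      have e2 : u - z + z = u := by abel
      rw [e1, e2] at h1
      exact h1)
    exact ⟨v, hv0, hvp⟩

theorem tor_period1 (S : List Tile) (n c : ℕ) : HasPeriod (tor S n c) ((n : ℤ) + 1, 0) := by
  intro u
  unfold tor
  congr 2
  · simp
  · simp

/-- If all tilings are periodic, then there is a tiling iff there is a doubly periodic one. -/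
theorem exists_tor (hDBL : S_DBL) (hENC : S_ENC) {S : List Tile} (h : AllPer S) :
    (∃ T, IsTiling S T) ↔ ∃ n c, IsTiling S (tor S n c) := by
  constructor
  · rintro ⟨T, hT⟩
    obtain ⟨v, hv, hp⟩ := h T hT
    obtain ⟨T', n, ⟨hH, hV⟩, h1, h2⟩ := hDBL {t : Tile // t ∈ S} (fun a b => Hor a.1 b.1)
      (fun a b => Ver a.1 b.1) (fun u => ⟨T u, hT.1 u⟩) v ⟨hT.2.1, hT.2.2⟩ hv
      (fun u => Subtype.ext (hp u))
    obtain ⟨c, -, hc⟩ := hENC S n (fun u => (T' u).1) (fun u _ => (T' u).2)
    have hper1 : ∀ (k : ℤ) (u : Pt), T' (u.1 + k * ((n : ℤ) + 1), u.2) = T' u := by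
      intro k
      induction k using Int.induction_on with
      | zero => intro u; simp
      | succ i ih =>
        intro u
        have := h1 (u.1 + i * ((n : ℤ) + 1), u.2)
        rw [ih u] at this
        rw [← this]
        congr 1
        ext
        · simp only [Prod.fst_add]; ring
        · simp
      | pred i ih =>
        intro u
        have := h1 (u.1 + (-i - 1) * ((n : ℤ) + 1), u.2)
        rw [← this, ← ih u]
        congr 1
        ext
        · simp only [Prod.fst_add]; ring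
        · simp
    have hper2 : ∀ (k : ℤ) (u : Pt), T' (u.1, u.2 + k * ((n : ℤ) + 1)) = T' u := by
      intro k
      induction k using Int.induction_on with
      | zero => intro u; simp
      | succ i ih =>
        intro u
        have := h2 (u.1, u.2 + i * ((n : ℤ) + 1))
        rw [ih u] at this
        rw [← this]
        congr 1
        ext
        · simp
        · simp only [Prod.snd_add]; ring
      | pred i ih =>
        intro u
        have := h2 (u.1, u.2 + (-i - 1) * ((n : ℤ) + 1))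
        rw [← this, ← ih u]
        congr 1
        ext
        · simp
        · simp only [Prod.snd_add]; ring
    have hn : (0 : ℤ) < (n : ℤ) + 1 := by positivity
    have key : tor S n c = fun u => (T' u).1 := by
      funext u
      unfold tor
      rw [hc]
      · have e := hper1 (-(u.1 / ((n : ℤ) + 1))) u
        have e2 := hper2 (-(u.2 / ((n : ℤ) + 1))) (u.1 + -(u.1 / ((n : ℤ) + 1)) * ((n : ℤ) + 1), u.2)
        rw [e] at e2
        rw [← e2]
        congr 2
        ext
        · simp only []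
          rw [Int.emod_def]; ring
        · simp only []
          rw [Int.emod_def]; ring
      · have g1 := Int.emod_nonneg u.1 hn.ne'
        have g2 := Int.emod_lt_of_pos u.1 hn
        have g3 := Int.emod_nonneg u.2 hn.ne'
        have g4 := Int.emod_lt_of_pos u.2 hn
        constructor
        · show |u.1 % ((n : ℤ) + 1) - 0| ≤ n
          rw [sub_zero, abs_of_nonneg g1]; omega
        · show |u.2 % ((n : ℤ) + 1) - 0| ≤ n
          rw [sub_zero, abs_of_nonneg g3]; omega
    refine ⟨n, c, ?_⟩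
    rw [key]
    exact ⟨fun u => (T' u).2, hH, hV⟩
  · rintro ⟨n, c, h⟩
    exact ⟨_, h⟩

theorem primrec_factorial : Primrec Nat.factorial := by
  have h : Primrec (fun n : ℕ => (Nat.rec 1 (fun k r => (k + 1) * r) n : ℕ)) := by
    refine Primrec.nat_rec' (f := fun n : ℕ => n) (g := fun _ => 1)
      (h := fun (_ : ℕ) (p : ℕ × ℕ) => (p.1 + 1) * p.2) Primrec.id (Primrec.const 1) ?_
    exact (Primrec.nat_mul.comp (Primrec.succ.comp (Primrec.fst.comp Primrec.snd))
      (Primrec.snd.comp Primrec.snd))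
  refine h.of_eq fun n => ?_
  induction n with
  | zero => rfl
  | succ n ih => rw [Nat.factorial_succ, ← ih]

theorem primrec_Lf : Primrec Lf := by
  have h : Primrec fun B : ℕ => 2 * (B * B) :=
    Primrec.nat_mul.comp (Primrec.const 2) (Primrec.nat_mul.comp Primrec.id Primrec.id)
  refine (primrec_factorial.comp h).of_eq fun B => ?_
  rw [Lf, sq]

theorem primrec_Kf : Primrec Kf := by
  have h1 : Primrec fun B : ℕ => B * (B * B) :=
    Primrec.nat_mul.comp Primrec.id (Primrec.nat_mul.comp Primrec.id Primrec.id)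
  have h2 : Primrec fun B : ℕ => 4 * Lf B * (B * (B * B)) :=
    Primrec.nat_mul.comp (Primrec.nat_mul.comp (Primrec.const 4) primrec_Lf) h1
  refine (Primrec.nat_add.comp h2 (Primrec.nat_mul.comp (Primrec.const 2) Primrec.id)).of_eq
    fun B => ?_
  simp only [Kf, id]
  ring

theorem primrec_Kr : Primrec Kr :=
  primrec_Kf.comp (Primrec.nat_mul.comp primrec_factorial Primrec.id)

/-- The set of the prototile sets all of whose tilings are periodic is recursively enumerable. -/
theorem main' (hLOC : S_LOC2) (hMUL : S_MUL) (hMIN : S_MIN) (hKON : S_KON) (hENC : S_ENC)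
    (hREC : S_REC) : REPred AllPer := by
  have h2 := (hREC hENC).2
  have h3 : REPred fun q : (List Tile × ℕ) × ℕ => ∀ T, BoxTiling q.1.1 (q.2 + Kr q.1.2) T →
    ∃ v, v ≠ 0 ∧ Box q.1.2 0 v ∧ LocPer T v 0 (Kr q.1.2) := by
    refine Pool.Agent.Helper446.RE.comp (f := fun q : (List Tile × ℕ) × ℕ =>
      (q.1.1, (q.2, (q.1.2, Kr q.1.2)))) (h2.computablePred.to_re) ?_
    refine Primrec.to_comp ?_
    refine (Primrec.fst.comp Primrec.fst).pair (Primrec.snd.pair
      ((Primrec.snd.comp Primrec.fst).pair (primrec_Kr.comp (Primrec.snd.comp Primrec.fst))))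
  have h4 := Pool.Agent.Helper446.RE.exN (p := fun (x : List Tile × ℕ) (m : ℕ) =>
    ∀ T, BoxTiling x.1 (m + Kr x.2) T → ∃ v, v ≠ 0 ∧ Box x.2 0 v ∧ LocPer T v 0 (Kr x.2)) h3
  have h5 := Pool.Agent.Helper446.RE.exN (p := fun (S : List Tile) (R : ℕ) => ∃ m : ℕ,
    ∀ T, BoxTiling S (m + Kr R) T → ∃ v, v ≠ 0 ∧ Box R 0 v ∧ LocPer T v 0 (Kr R)) h4
  exact h5.of_eq fun S => (allPer_iff hLOC hMUL hMIN hKON S).symm

/-- The set of the prototile sets which admit tilings and only periodic ones is recursively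
enumerable. -/
theorem main (hLOC : S_LOC2) (hMUL : S_MUL) (hMIN : S_MIN) (hKON : S_KON) (hENC : S_ENC)
    (hREC : S_REC) (hDBL : S_DBL) (hTOR : S_TOR) :
    REPred fun S : List Tile => (∃ T, IsTiling S T) ∧ AllPer S := by
  have h1 := main' hLOC hMUL hMIN hKON hENC hREC
  have h6 : REPred fun S : List Tile => ∃ n c, IsTiling S (tor S n c) := by
    have h7 : REPred fun q : (List Tile × ℕ) × ℕ => IsTiling q.1.1 (tor q.1.1 q.1.2 q.2) := by
      refine Pool.Agent.Helper446.RE.comp (f := fun q : (List Tile × ℕ) × ℕ =>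
        (q.1.1, (q.1.2, q.2))) ((show PrimrecPred _ from hTOR).computablePred.to_re) ?_
      refine Primrec.to_comp ?_
      exact (Primrec.fst.comp Primrec.fst).pair ((Primrec.snd.comp Primrec.fst).pair Primrec.snd)
    exact Pool.Agent.Helper446.RE.exN (p := fun (S : List Tile) (n : ℕ) =>
      ∃ c, IsTiling S (tor S n c)) (Pool.Agent.Helper446.RE.exN
      (p := fun (x : List Tile × ℕ) (c : ℕ) => IsTiling x.1 (tor x.1 x.2 c)) h7)
  refine (Pool.Agent.Helper446.RE.and h6 h1).of_eq fun S => ?_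
  constructor
  · rintro ⟨h, h'⟩; exact ⟨(exists_tor hDBL hENC h').2 h, h'⟩
  · rintro ⟨h, h'⟩; exact ⟨(exists_tor hDBL hENC h').1 h, h'⟩

end Pool.Agent.Q206.PW
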