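import Pool.Agent.Q206.PW.Defs

/-!
# Prototile sets all of whose tilings are periodic: statements of the lemmas

Main theorem: if every element of a closed translation invariant set `X` of maps `ℤ² → A`, `A`
finite, has a nonzero period, then the elements of `X` have nonzero periods in a bounded square.
-/

set_option autoImplicit false

namespace Pool.Agent.Q206.PW

/-- **PW-LOC2.** Local periodicity implies periodicity. `W` is a set of nonzero vectors of norm at
most `B` such that parallel elements are equal or opposite. `K = Kf B = K' + 2 B`, `K' = 4 L B ^ 3`,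
`L = Lf B`. Suppose all squares of radius `K` have a period in `W`. Call `z` single if any two
`w, w' ∈ W` with `LocPer x w z K'` and `LocPer x w' z K'` are parallel.
(A) Let `z` be single, `w ∈ W`, `LocPer x w z K`. The square of radius `K'` around `z + w` is contained
in the square of radius `K` around `z`, and `x` looks the same on the squares of radius `K'` around
`z` and `z + w`. So `z + w` is single, and the vector `w''` with `LocPer x w'' (z + w) K` is parallel to
`w`, so `w'' = ± w` and `LocPer x w (z + w) K`. The same for `z - w`; so all `z + t w`, `t ∈ ℤ`, are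
single with `LocPer x w (z + t w) K`.
(B) If `z₁`, `z₂` are single, with `w₁`, `w₂` as in (A), then `w₁`, `w₂` are parallel. Otherwise let
`D = det (w₁, w₂) ≠ 0`, `d = z₂ - z₁`; then `D d = det (d, w₂) w₁ + det (w₁, d) w₂`; integer division
of the two determinants by `D` gives integers `s`, `t` with `|s w₁ + t w₂ - d| ≤ 2 B` (maximum norm).
So `p = z₁ + s w₁` and `q = z₂ - t w₂` have distance `≤ 2 B`, and the square of radius `K'` around `p`
is contained in the one of radius `K` around `q`: so both `w₁` and `w₂` are local periods at `p`, which
is single by (A).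
(C) Let `w₁ ∈ W` be the vector of some single point (any element of `W` if there is none). Then
`L w₁` is a period of `x`, of norm `≤ L B`: if `z` is single, then by (B) `w₁` is a local period in
the square of radius `K` around `z`, which contains `z + i w₁`, `i ≤ L`. If `z` is not single, take
`w, w' ∈ W` not parallel with `LocPer x w z K'`, `LocPer x w' z K'`; `D = det (w, w')` has
`0 < |D| ≤ 2 B ^ 2`, so it divides `L`, and `L w₁ = (L / D) (det (w₁, w') w + det (w, w₁) w')`; go from
`z` to `z + L w₁` by steps `± w` and then `± w'`, at most `2 * L * 2 B ^ 2` steps, staying in the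
square of radius `4 L B ^ 3`. -/
def S_LOC2 : Prop := ∀ (B : ℕ) (W : Set Pt), (∀ w ∈ W, w ≠ 0 ∧ Box B 0 w) →
  (∀ w ∈ W, ∀ w' ∈ W, Par w w' → w' = w ∨ w' = -w) → ∀ (A : Type) (x : Pt → A),
  (∀ z, ∃ w ∈ W, LocPer x w z (Kf B)) → ∃ v, v ≠ 0 ∧ Box (Lf B * B) 0 v ∧ HasPeriod x v

/-- **PW-MUL.** (Uses `S_LOC2`, with `B = R! * R` and `W` = the set of the vectors
`w(v) = (R! / gcd (v₁, v₂)) v`, `v ≠ 0` in the square of radius `R`.) A local period `v` in a square
gives the local period `i v`: if `u` and `u + i v` are in the square, then so are the points between.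
Vectors `v`, `v'` are parallel iff `w(v)`, `w(v')` are, and then `w(v') = ± w(v)` (both are `R!` times
the primitive vector of the direction, up to the sign). -/
def S_MUL : Prop := S_LOC2 → ∀ (R : ℕ) (A : Type) (x : Pt → A),
  (∀ z, ∃ v, v ≠ 0 ∧ Box R 0 v ∧ LocPer x v z (Kf (R.factorial * R))) →
    ∃ v, v ≠ 0 ∧ HasPeriod x v ∧ Box (Lf (R.factorial * R) * (R.factorial * R)) 0 v

/-- **PW-MIN.** Consider the family of the closed invariant subsets `Z` of `X` with
(P) for every `k` there is `x ∈ X` without periods in the square of radius `k` such that every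
`k`-square of `x` occurs in `Z`.
`X` is in the family. By compactness (finite `A`) the intersection of a chain in the family is in the
family: for every `k` there are finitely many patterns on the square of radius `k`, and a pattern
which occurs in all members of the chain occurs in the intersection. Let `Z` be minimal (Zorn).
Suppose that `Z` contains elements without periods in the square of radius `n`, for all `n`. For
every pattern `p` occurring in `Z` there is `N` such that every `z ∈ Z` with `NoPer z N` contains `p`
(otherwise `{z ∈ Z | z does not contain p}` is a smaller member of the family). Let `v₁, v₂, …` be the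
nonzero vectors. Construct `z_i ∈ Z` and radii `r_i` such that `z_{i+1} = z_i` on the square of
radius `r_i`, `r_{i+1} > r_i`, and `z_i (u + v_i) ≠ z_i u` for some `u` with `u, u + v_i` in the
square of radius `r_i`: take `z ∈ Z` without periods in a large square; it contains a translate of
the pattern of `z_i` on the square of radius `r_i`; move it to the centre. The limit is in `Z` and has
no period, a contradiction. -/
def S_MIN : Prop := ∀ (A : Type) [Finite A] (X : Set (Pt → A)), Clo X → Inv X →
  (∀ x ∈ X, ∃ v, v ≠ 0 ∧ HasPeriod x v) → (∀ n, ∃ x ∈ X, NoPer x n) →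
  ∃ Z : Set (Pt → A), (∃ R : ℕ, ∀ z ∈ Z, ∃ v, v ≠ 0 ∧ Box R 0 v ∧ HasPeriod z v) ∧
    ∀ k : ℕ, ∃ x ∈ X, NoPer x k ∧ ∀ c : Pt, ∃ z ∈ Z, ∀ u, Box k 0 u → x (u + c) = z u

/-- **PW-KON.** Compactness (König's lemma, or Tychonoff for the product of the finite sets `S`; the
values of `T m` outside of the square of radius `m` may be changed to an element of `S`). -/
def S_KON : Prop := ∀ (S : List Tile) (T : ℕ → Pt → Tile), (∀ m, BoxTiling S m (T m)) →
  ∃ T' : Pt → Tile, IsTiling S T' ∧ ∀ k : ℕ, ∃ m, k ≤ m ∧ ∀ u, Box k 0 u → T' u = T m u

/-- **PW-ENC.** Every map from the square to `S` has a number: the digits of `c` in base `S.length` are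
the numbers of the tiles (`Nat.ofDigits`, or by induction on the number of the positions; different
points of the square have different positions `< (2 n + 1) ^ 2`). -/
def S_ENC : Prop := ∀ (S : List Tile) (n : ℕ) (T : Pt → Tile), (∀ u, Box n 0 u → T u ∈ S) →
  ∃ c, c < S.length ^ ((2 * n + 1) ^ 2) ∧ ∀ u, Box n 0 u → dec S n c u = T u

/-- **PW-REC.** (Uses `S_ENC`.) Both relations are primitive recursive: by `S_ENC` it is enough to
consider the maps `dec S n c` with `c < S.length ^ ((2 n + 1) ^ 2)`; write the points of the squares
as `(i - n, j - n)` with `i, j < 2 n + 1`, and use `PrimrecPred.exists_lt`, `PrimrecRel.forall_lt` etc.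
(`Mathlib/Computability/Primrec/List.lean`). -/
def S_REC : Prop := S_ENC →
  PrimrecPred (fun q : List Tile × ℕ => ∃ T, BoxTiling q.1 q.2 T) ∧
  PrimrecPred (fun q : List Tile × (ℕ × ℕ × ℕ) => ∀ T, BoxTiling q.1 (q.2.1 + q.2.2.2) T →
    ∃ v, v ≠ 0 ∧ Box q.2.2.1 0 v ∧ LocPer T v 0 q.2.2.2)

end Pool.Agent.Q206.PW
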