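import Pool.Agent.Q206.PW.Stm

/-!
# Prototile sets all of whose tilings are periodic: two further statements
-/

set_option autoImplicit false

namespace Pool.Agent.Q206.PW

/-- `T` is a tiling for the relations `H` (left neighbour, right neighbour) and `V` (lower neighbour,
upper neighbour). -/
def Tl {A : Type} (H V : A → A → Prop) (T : Pt → A) : Prop :=
  (∀ u, H (T u) (T (u + (1, 0)))) ∧ ∀ u, V (T u) (T (u + (0, 1)))

/-- **PW-DBL.** If there is a tiling with a nonzero period, then there is a tiling with two
independent periods.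
Let `v = (a, b)` be the period. By symmetry (exchange the coordinates and `H`, `V`; the period may
be replaced by `-v`) we can assume `b > 0`. For `k ∈ ℕ` consider the finite map
`Fin (2 |a| + 1) × Fin b → A`, `(s, y) ↦ T (k (|a| + 1) + s - |a|, y)`. By the pigeonhole principle
(`Finite.exists_ne_map_eq_of_infinite`) two numbers `k < k'` give the same map. Let
`p = (k' - k) (|a| + 1) > |a|`; after a translation of `T` we have `T (s, y) = T (p + s, y)` for
`|s| ≤ |a|`, `0 ≤ y < b`. Let `T' (x, y) = T ((x - (y / b) a) % p, y % b)`.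
Horizontally: if `r = (x - (y / b) a) % p`, then the next number is `r + 1`, or `0` if `r + 1 = p`,
and `T (0, _) = T (p, _)`. Vertically: if `y % b + 1 < b`, nothing to do; otherwise `y % b = b - 1`, the
next row belongs to `y / b + 1`, and one needs `T ((r - a) % p, 0) = T (r - a, 0) = T (r, b)`: this is
clear if `0 ≤ r - a < p`; if `r - a < 0`, then `(r - a) % p = p + (r - a)` and `|r - a| ≤ |a|`; if
`r - a ≥ p`, then `r - a = p + s`, `0 ≤ s < |a| < p`.
`T'` has the periods `(p, 0)` and `(0, b p)`, so `n + 1 = b p` is as required. -/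
def S_DBL : Prop := ∀ (A : Type) [Finite A] (H V : A → A → Prop) (T : Pt → A) (v : Pt),
  Tl H V T → v ≠ 0 → HasPeriod T v →
  ∃ (T' : Pt → A) (n : ℕ), Tl H V T' ∧ HasPeriod T' ((n : ℤ) + 1, 0) ∧ HasPeriod T' (0, (n : ℤ) + 1)

/-- The doubly periodic map with the number `c`: it has the periods `(n + 1, 0)` and `(0, n + 1)`. -/
def tor (S : List Tile) (n c : ℕ) (u : Pt) : Tile :=
  dec S n c (u.1 % ((n : ℤ) + 1), u.2 % ((n : ℤ) + 1))

/-- **PW-TOR.** It is primitive recursive whether `tor S n c` is a tiling: it is enough to consider the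
points `u = (i, j)` with `i, j < n + 1` (`List.range`, `PrimrecPred.forall_lt` etc.), and
`dec S n c (i, j) = S.getD ((c / S.length ^ ((i + n) (2 n + 1) + (j + n))) % S.length) 0` for natural
numbers `i, j`. -/
def S_TOR : Prop := PrimrecPred (fun q : List Tile × (ℕ × ℕ) => IsTiling q.1 (tor q.1 q.2.1 q.2.2))

end Pool.Agent.Q206.PW
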